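import Pool.Agent.Helper73.RF.GoalsD

/-!
# Project RF, packet D6: functions of `(x,t)` in the concrete basic algebra
-/

set_option autoImplicit false

open Finset Pool.Agent.Helper47.RF Pool.Agent.Helper73.RF

namespace Pool.Agent.Helper60.RF

/-- projection to `(x,t)` -/
noncomputable def pxt : W →L[ℝ] HH × ℝ :=
  (ContinuousLinearMap.fst ℝ HH (HH × ℝ)).prod
    ((ContinuousLinearMap.snd ℝ HH ℝ).comp (ContinuousLinearMap.snd ℝ HH (HH × ℝ)))

@[simp] theorem pxt_apply (p : W) : pxt p = (p.1, p.2.2) := rfl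

/-- the open set of `(x,t)` -/
def Ot (T : ℝ) : Set (HH × ℝ) := {p | p.1 ≠ 0 ∧ 0 < p.2 ∧ p.2 < T}

theorem isOpen_Ot (T : ℝ) : IsOpen (Ot T) := by
  have h1 : IsOpen {p : HH × ℝ | p.1 ≠ 0} := isOpen_ne_fun continuous_fst continuous_const
  have h3 : IsOpen {p : HH × ℝ | 0 < p.2} := isOpen_lt continuous_const continuous_snd
  have h4 : IsOpen {p : HH × ℝ | p.2 < T} := isOpen_lt continuous_snd continuous_const
  have : Ot T = {p : HH × ℝ | p.1 ≠ 0} ∩ ({p : HH × ℝ | 0 < p.2} ∩ {p : HH × ℝ | p.2 < T}) := by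
    ext p; simp [Ot]
  rw [this]
  exact h1.inter (h3.inter h4)

/-- the family as a function of the pair -/
def Gf (u : ℝ → HH → ℝ) : HH × ℝ → ℝ := fun p => u p.2 p.1

theorem Gf_cd {T : ℝ} {u : ℝ → HH → ℝ} (hu : JS T u) : ContDiffOn ℝ inf (Gf u) (Ot T) := hu.cd

theorem Gf_der {T : ℝ} {u : ℝ → HH → ℝ} (hu : JS T u) {p : HH × ℝ} (hp : p ∈ Ot T) :
    HasFDerivAt (Gf u) (fderiv ℝ (Gf u) p) p := by
  have : ContDiffAt ℝ inf (Gf u) p := (Gf_cd hu).contDiffAt ((isOpen_Ot T).mem_nhds hp)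
  exact (this.differentiableAt (by simp)).hasFDerivAt

theorem pxt_mem {T : ℝ} {p : W} (hp : p ∈ Om T) : pxt p ∈ Ot T := ⟨hp.1, hp.2.2.1, hp.2.2.2⟩

theorem derf_emb {T : ℝ} {u : ℝ → HH → ℝ} (hu : JS T u) (X : W → W) (p : Om T) :
    derf X (fun p : Om T => u p.1.2.2 p.1.1) p = fderiv ℝ (Gf u) (pxt p.1) (pxt (X p.1)) := by
  unfold derf
  have h1 : HasFDerivAt (fun p : W => Gf u (pxt p)) ((fderiv ℝ (Gf u) (pxt p.1)).comp pxt) p.1 :=
    (Gf_der hu (pxt_mem p.2)).comp p.1 pxt.hasFDerivAt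
  have h2 : (fun p : W => Gf u (pxt p)) =ᶠ[nhds p.1]
      exT (fun p : Om T => u p.1.2.2 p.1.1) := by
    filter_upwards [(isOpen_Om T).mem_nhds p.2] with p' hp'
    rw [exT_of_mem _ hp']
    rfl
  rw [(h1.congr_of_eventuallyEq h2.symm).fderiv]
  rfl

/-- the spatial derivative -/
theorem E_eq {T : ℝ} {u : ℝ → HH → ℝ} (hu : JS T u) {p : HH × ℝ} (hp : p ∈ Ot T) (i : Fin 3) :
    E i (u p.2) p.1 = fderiv ℝ (Gf u) p (p.1 * qe i, 0) := by
  have h1 : HasFDerivAt (fun x : HH => (x, p.2))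
      ((ContinuousLinearMap.id ℝ HH).prod (0 : HH →L[ℝ] ℝ)) p.1 :=
    (hasFDerivAt_id p.1).prodMk (hasFDerivAt_const p.2 p.1)
  have h2 : HasFDerivAt (fun x : HH => Gf u (x, p.2))
      ((fderiv ℝ (Gf u) p).comp ((ContinuousLinearMap.id ℝ HH).prod (0 : HH →L[ℝ] ℝ))) p.1 :=
    HasFDerivAt.comp p.1 (Gf_der hu hp) h1
  have h3 : (fun x : HH => Gf u (x, p.2)) = u p.2 := rfl
  rw [h3] at h2
  unfold E
  rw [h2.fderiv]
  rfl

theorem E_hom {f : HH → ℝ} (hf : Hom0 f) (i : Fin 3) : Hom0 (E i f) := by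
  intro r x hr
  have h1 : (fun y => f (r • y)) = f := by funext y; exact hf r y hr
  have h2 : fderiv ℝ f x = r • fderiv ℝ f (r • x) := by
    conv_lhs => rw [← h1]
    exact fderiv_comp_smul (𝕜 := ℝ) (f := f) (x := x) r
  unfold E
  rw [h2, smul_mul_assoc, map_smul]
  rfl

theorem JS_E {T : ℝ} {u : ℝ → HH → ℝ} (hu : JS T u) (i : Fin 3) : JS T (fun t => E i (u t)) := by
  refine ⟨?_, fun t h1 h2 => E_hom (hu.hom t h1 h2) i⟩
  have h1 : ContDiffOn ℝ inf (fderiv ℝ (Gf u)) (Ot T) :=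
    (Gf_cd hu).fderiv_of_isOpen (isOpen_Ot T) (by simp)
  have h2 : ContDiff ℝ inf (fun p : HH × ℝ => ((p.1 * qe i, 0) : HH × ℝ)) :=
    ((mulR (qe i)).contDiff.comp contDiff_fst).prodMk contDiff_const
  exact (h1.clm_apply h2.contDiffOn).congr fun p hp => E_eq hu hp i

theorem time_der {T : ℝ} {u : ℝ → HH → ℝ} (hu : JS T u) {p : HH × ℝ} (hp : p ∈ Ot T) :
    HasDerivAt (fun r => u r p.1) (fderiv ℝ (Gf u) p (0, 1)) p.2 := by
  have h1 : HasDerivAt (fun r : ℝ => ((p.1, r) : HH × ℝ)) ((0, 1) : HH × ℝ) p.2 :=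
    (hasDerivAt_const p.2 p.1).prodMk (hasDerivAt_id p.2)
  exact HasFDerivAt.comp_hasDerivAt p.2 (Gf_der hu hp) h1

theorem JS_time {T : ℝ} {u u' : ℝ → HH → ℝ} (hu : JS T u)
    (h : ∀ t, 0 < t → t < T → ∀ x, x ≠ 0 → HasDerivAt (fun r => u r x) (u' t x) t) : JS T u' := by
  refine ⟨?_, fun t h1 h2 r x hr => ?_⟩
  · have h1 : ContDiffOn ℝ inf (fderiv ℝ (Gf u)) (Ot T) :=
      (Gf_cd hu).fderiv_of_isOpen (isOpen_Ot T) (by simp)
    have h2 : ContDiffOn ℝ inf (fun p => fderiv ℝ (Gf u) p ((0, 1) : HH × ℝ)) (Ot T) :=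
      h1.clm_apply contDiffOn_const
    exact h2.congr fun p hp => (h p.2 hp.2.1 hp.2.2 p.1 hp.1).unique (time_der hu hp)
  · by_cases hx : x = 0
    · rw [hx, smul_zero]
    · have h3 := h t h1 h2 x hx
      have h4 := h t h1 h2 (r • x) (smul_ne_zero hr.ne' hx)
      refine (h4.congr_of_eventuallyEq ?_).unique h3
      filter_upwards [Ioo_mem_nhds h1 h2] with s hs
      exact (hu.hom s hs.1 hs.2 r x hr).symm

theorem part1 {T : ℝ} (u : ℝ → HH → ℝ) (hu : JS T u) :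
    (∀ z (t : TI T), (baC T).ev z t (emb u hu) = u t (Prod.fst z : Metric.sphere (0 : HH) 1))
      ∧ (baC T).XT (emb u hu)
      ∧ (∀ i, ∃ hE : JS T (fun t => E i (u t)), (baC T).E i (emb u hu) = emb _ hE)
      ∧ (∀ u' : ℝ → HH → ℝ, (∀ t, 0 < t → t < T → ∀ x, x ≠ 0 →
          HasDerivAt (fun r => u r x) (u' t x) t) →
          ∃ hD : JS T u', (baC T).Dt (emb u hu) = emb _ hD) := by
  refine ⟨fun z t => rfl, ⟨fun k => ?_, fun k => ?_⟩, fun i => ⟨JS_E hu i, ?_⟩, fun u' h =>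
    ⟨JS_time hu h, ?_⟩⟩
  · apply Subtype.ext
    funext p
    change derf (vf 0 ((1 / 2 : ℝ) • qe k) 0 0).X (fun p : Om T => u p.1.2.2 p.1.1) p = 0
    rw [derf_emb hu]
    have : pxt ((vf 0 ((1 / 2 : ℝ) • qe k) 0 0).X p.1) = 0 := by simp [vf]
    rw [this, map_zero]
  · apply Subtype.ext
    funext p
    change derf (vf 0 0 ((-(1 / 2) : ℝ) • qe k) 0).X (fun p : Om T => u p.1.2.2 p.1.1) p = 0
    rw [derf_emb hu]
    have : pxt ((vf 0 0 ((-(1 / 2) : ℝ) • qe k) 0).X p.1) = 0 := by simp [vf]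
    rw [this, map_zero]
  · apply Subtype.ext
    funext p
    change derf (vf (qe i) 0 0 0).X (fun p : Om T => u p.1.2.2 p.1.1) p = E i (u p.1.2.2) p.1.1
    rw [derf_emb hu]
    exact (E_eq hu (pxt_mem p.2) i).symm
  · apply Subtype.ext
    funext p
    change derf (vf 0 0 0 1).X (fun p : Om T => u p.1.2.2 p.1.1) p = u' p.1.2.2 p.1.1
    rw [derf_emb hu]
    have e : pxt ((vf 0 0 0 1).X p.1) = (0, 1) := by simp [vf]
    rw [e]
    exact (time_der hu (pxt_mem p.2)).unique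
      (h p.1.2.2 p.2.2.2.1 p.2.2.2.2 p.1.1 p.2.1)

/-! ### Restriction to `q = 1` -/

theorem mem1 {T : ℝ} {x : HH} {t : ℝ} (hx : x ≠ 0) (h0 : 0 < t) (hT : t < T) :
    ((x, 1, t) : W) ∈ Om T := ⟨hx, one_ne_zero, h0, hT⟩

/-- inclusion of `(x,t)` -/
theorem JS_at1 {T : ℝ} (f : (baC T).B) : JS T (at1 f) := by
  have hf : IsB (f : BB T).1 := (f : BB T).2
  refine ⟨?_, fun t h1 h2 r x hr => ?_⟩
  · have h1 : ContDiff ℝ inf (fun p : HH × ℝ => ((p.1, 1, p.2) : W)) :=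
      contDiff_fst.prodMk (contDiff_const.prodMk contDiff_snd)
    exact hf.cd.comp h1.contDiffOn (fun p hp => mem1 hp.1 hp.2.1 hp.2.2)
  · by_cases hx : x = 0
    · rw [hx, smul_zero]
    · have h3 := hf.hom r 1 hr one_pos _ (mem1 hx h1 h2)
      rw [scW_apply, one_smul] at h3
      exact h3

theorem at1_der {T : ℝ} (f : (baC T).B) {x : HH} {t : ℝ} (hx : x ≠ 0) (h0 : 0 < t) (hT : t < T) :
    HasFDerivAt (exT (f : BB T).1) (fderiv ℝ (exT (f : BB T).1) (x, 1, t)) (x, 1, t) :=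
  exT_hasFDerivAt (f : BB T).2 (mem1 hx h0 hT)

theorem at1_derB {T : ℝ} (f : (baC T).B) (X : VF) {x : HH} {t : ℝ} (hx : x ≠ 0) (h0 : 0 < t)
    (hT : t < T) : at1 (T := T) (derB T X f) t x =
      fderiv ℝ (exT (f : BB T).1) (x, 1, t) (X.X (x, 1, t)) := by
  unfold at1
  change exT (derf X.X (f : BB T).1) (x, 1, t) = _
  rw [exT_of_mem _ (mem1 hx h0 hT)]
  rfl

theorem at1_E {T : ℝ} (f : (baC T).B) (i : Fin 3) (t : ℝ) (x : HH) (h0 : 0 < t) (hT : t < T)
    (hx : x ≠ 0) : at1 ((baC T).E i f) t x = E i (at1 f t) x := by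
  change at1 (T := T) (derB T (vf (qe i) 0 0 0) f) t x = _
  rw [at1_derB f _ hx h0 hT]
  have h1 : HasFDerivAt (fun x : HH => ((x, 1, t) : W))
      ((ContinuousLinearMap.id ℝ HH).prod (0 : HH →L[ℝ] HH × ℝ)) x :=
    (hasFDerivAt_id x).prodMk (hasFDerivAt_const (((1 : HH), t) : HH × ℝ) x)
  have h2 : HasFDerivAt (at1 f t) ((fderiv ℝ (exT (f : BB T).1) (x, 1, t)).comp
      ((ContinuousLinearMap.id ℝ HH).prod (0 : HH →L[ℝ] HH × ℝ))) x :=
    HasFDerivAt.comp x (at1_der f hx h0 hT) h1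
  unfold E
  rw [h2.fderiv]
  have e : (vf (qe i) 0 0 0).X (x, 1, t) = (x * qe i, 0) := by
    simp only [vf, mul_zero, zero_mul, add_zero]
    rfl
  rw [e]
  rfl

theorem at1_t {T : ℝ} (f : (baC T).B) (t : ℝ) (x : HH) (h0 : 0 < t) (hT : t < T)
    (hx : x ≠ 0) : HasDerivAt (fun r => at1 f r x) (at1 ((baC T).Dt f) t x) t := by
  have e1 : at1 ((baC T).Dt f) t x =
      fderiv ℝ (exT (f : BB T).1) (x, 1, t) ((0, 0, 1) : W) := by
    change at1 (T := T) (derB T (vf 0 0 0 1) f) t x = _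
    rw [at1_derB f _ hx h0 hT]
    have e : (vf 0 0 0 1).X (x, 1, t) = ((0, 0, 1) : W) := by
      simp only [vf, mul_zero, zero_mul, add_zero]
    rw [e]
  rw [e1]
  have h1 : HasDerivAt (fun r : ℝ => ((x, 1, r) : W)) ((0, 0, 1) : W) t :=
    (hasDerivAt_const t x).prodMk ((hasDerivAt_const t (1 : HH)).prodMk (hasDerivAt_id t))
  exact HasFDerivAt.comp_hasDerivAt t (at1_der f hx h0 hT) h1

theorem at1_R {T : ℝ} (a b : Fin 3) (t : ℝ) (x : HH) (h0 : 0 < t) (hT : t < T) (hx : x ≠ 0) :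
    at1 ((baC T).R a b) t x = if a = b then 1 else 0 := by
  unfold at1
  change exT (fun p : Om T => rotf p.1.2.1 a b) (x, 1, t) = _
  rw [exT_of_mem _ (mem1 hx h0 hT)]
  change rotf 1 a b = _
  rw [rotf_formula]
  have r0 : (1 : HH).re = 1 := rfl
  have r1 : (1 : HH).imI = 0 := rfl
  have r2 : (1 : HH).imJ = 0 := rfl
  have r3 : (1 : HH).imK = 0 := rfl
  rw [r0, r1, r2, r3]
  fin_cases a <;> fin_cases b <;> simp

theorem at1_UV {T : ℝ} (f : (baC T).B) (k : Fin 3) (t : ℝ) (x : HH) (h0 : 0 < t) (hT : t < T)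
    (hx : x ≠ 0) : at1 ((baC T).U k f) t x = -at1 ((baC T).V k f) t x := by
  change at1 (T := T) (derB T (vf 0 ((1 / 2 : ℝ) • qe k) 0 0) f) t x =
    -at1 (T := T) (derB T (vf 0 0 ((-(1 / 2) : ℝ) • qe k) 0) f) t x
  rw [at1_derB f _ hx h0 hT, at1_derB f _ hx h0 hT, ← map_neg]
  congr 1
  simp only [vf, mul_zero, zero_mul, add_zero, zero_add, one_mul, mul_one, neg_smul, Prod.neg_mk,
    neg_zero, neg_neg]

/-- constant in `q` -/
theorem const_q {T : ℝ} (f : (baC T).B) (hV : ∀ k, (baC T).V k f = 0) {x q : HH} {t : ℝ}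
    (hx : x ≠ 0) (hq : q ≠ 0) (h0 : 0 < t) (hT : t < T) :
    exT (f : BB T).1 (x, q, t) = exT (f : BB T).1 (x, 1, t) := by
  have hf : IsB (f : BB T).1 := (f : BB T).2
  set h : HH → ℝ := fun q => exT (f : BB T).1 (x, q, t) with hh
  have hmem : ∀ q : HH, q ≠ 0 → ((x, q, t) : W) ∈ Om T := fun q hq => ⟨hx, hq, h0, hT⟩
  have hder : ∀ q : HH, q ≠ 0 → HasFDerivAt h ((fderiv ℝ (exT (f : BB T).1) (x, q, t)).comp
      ((0 : HH →L[ℝ] HH).prod ((ContinuousLinearMap.id ℝ HH).prod (0 : HH →L[ℝ] ℝ)))) q := by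
    intro q hq
    have h1 : HasFDerivAt (fun q : HH => ((x, q, t) : W))
        ((0 : HH →L[ℝ] HH).prod ((ContinuousLinearMap.id ℝ HH).prod (0 : HH →L[ℝ] ℝ))) q :=
      (hasFDerivAt_const x q).prodMk ((hasFDerivAt_id q).prodMk (hasFDerivAt_const t q))
    exact HasFDerivAt.comp q (exT_hasFDerivAt hf (hmem q hq)) h1
  -- vertical derivatives
  have hvert : ∀ (k : Fin 3) (q : HH), q ≠ 0 → fderiv ℝ h q (qe k * q) = 0 := by
    intro k q hq
    have h1 : (((baC T).V k f : BB T).1 ⟨(x, q, t), hmem q hq⟩ : ℝ) = 0 := by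
      rw [hV k]; rfl
    have h2 : fderiv ℝ (exT (f : BB T).1) (x, q, t)
        ((vf 0 0 ((-(1 / 2) : ℝ) • qe k) 0).X (x, q, t)) = 0 := h1
    have e : (vf 0 0 ((-(1 / 2) : ℝ) • qe k) 0).X (x, q, t) =
        (-(1 / 2) : ℝ) • ((0, qe k * q, 0) : W) := by
      simp only [vf, mul_zero, zero_add, smul_mul_assoc, Prod.smul_mk, smul_zero]
    rw [e, map_smul, smul_eq_mul, mul_eq_zero] at h2
    rcases h2 with h2 | h2
    · norm_num at h2
    · rw [(hder q hq).fderiv]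
      exact h2
  -- Euler
  have heul : ∀ q : HH, q ≠ 0 → fderiv ℝ h q q = 0 := by
    intro q hq
    have h1 : HasDerivAt (fun s : ℝ => (1 + s) • q) q 0 := by
      have : HasDerivAt (fun s : ℝ => (1 + s)) 1 0 := by
        simpa using (hasDerivAt_id (0:ℝ)).const_add 1
      simpa using this.smul_const q
    have h2 : HasFDerivAt h (fderiv ℝ h q) ((1 + (0:ℝ)) • q) := by
      have h3 := (hder q hq).differentiableAt.hasFDerivAt
      simpa using h3
    have h3 : HasDerivAt (fun s : ℝ => h ((1 + s) • q)) (fderiv ℝ h q q) 0 :=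
      HasFDerivAt.comp_hasDerivAt (l := h) (f := fun s : ℝ => (1 + s) • q) (0 : ℝ) h2 h1
    have h4 : (fun s : ℝ => h ((1 + s) • q)) =ᶠ[nhds 0] fun _ => h q := by
      have : ∀ᶠ s : ℝ in nhds 0, 0 < 1 + s := by
        have := (isOpen_lt (continuous_const (y := (0:ℝ))) (continuous_const.add continuous_id)
          : IsOpen {s : ℝ | 0 < 1 + s}).mem_nhds (x := (0:ℝ)) (by simp)
        exact this
      filter_upwards [this] with s hs
      have h5 := hf.hom 1 (1 + s) one_pos hs _ (hmem q hq)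
      rw [scW_apply, one_smul] at h5
      exact h5
    have h5 : HasDerivAt (fun s : ℝ => h ((1 + s) • q)) 0 0 :=
      (hasDerivAt_const (0:ℝ) (h q)).congr_of_eventuallyEq h4
    exact h3.unique h5
  have hzero : ∀ q : HH, q ≠ 0 → fderiv ℝ h q = 0 := by
    intro q hq
    ext v
    set w : HH := v * q⁻¹ with hw
    have hv : v = w.re • q + (w.imI • (qe 0 * q) + (w.imJ • (qe 1 * q) + w.imK • (qe 2 * q))) := by
      have h1 : w = w.re • (1 : HH) + (w.imI • qe 0 + (w.imJ • qe 1 + w.imK • qe 2)) := by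
        have r0 : (1 : HH).re = 1 := rfl
        have r1 : (1 : HH).imI = 0 := rfl
        have r2 : (1 : HH).imJ = 0 := rfl
        have r3 : (1 : HH).imK = 0 := rfl
        ext <;> simp [qe, r0, r1, r2, r3]
      calc v = w * q := by rw [hw, inv_mul_cancel_right₀ hq]
        _ = (w.re • (1 : HH) + (w.imI • qe 0 + (w.imJ • qe 1 + w.imK • qe 2))) * q := by
          rw [← h1]
        _ = _ := by
          simp only [add_mul, smul_mul_assoc, one_mul]
    have h2 : fderiv ℝ h q v = 0 := by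
      rw [hv]
      simp only [map_add, map_smul, hvert _ q hq, heul q hq, smul_zero, add_zero]
    exact h2
  have hconn : IsPreconnected ({0}ᶜ : Set HH) := by
    apply (isConnected_compl_singleton_of_one_lt_rank _ _).isPreconnected
    rw [Quaternion.rank_eq_four]
    exact Nat.one_lt_ofNat
  have hopen : IsOpen ({0}ᶜ : Set HH) := isOpen_compl_singleton
  exact hopen.is_const_of_fderiv_eq_zero hconn
    (fun q hq => ((hder q hq).differentiableAt).differentiableWithinAt)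
    (fun q hq => hzero q hq) hq one_ne_zero

/-- **Packet D6.** -/
theorem d6 : D6Stmt := by
  intro T
  refine ⟨part1, fun f => ⟨JS_at1 f, fun x t => ?_, ?_, ?_⟩, ?_, ?_, ?_, ?_⟩
  · change exT (f : BB T).1 ((x : HH), 1, (t : ℝ)) = _
    rw [exT_of_mem _ (mem1 (sph_ne x) t.2.1 t.2.2)]
    rfl
  · intro i t x h0 hT hx
    exact at1_E f i t x h0 hT hx
  · intro t x h0 hT hx
    exact at1_t f t x h0 hT hx
  · intro f g t x h0 hT hx
    have hm := mem1 hx h0 hT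
    constructor
    · change exT ((f : BB T) * (g : BB T)).1 (x, 1, t) =
        exT (f : BB T).1 (x, 1, t) * exT (g : BB T).1 (x, 1, t)
      rw [exT_of_mem _ hm, exT_of_mem _ hm, exT_of_mem _ hm]
      rfl
    · change exT ((f : BB T) + (g : BB T)).1 (x, 1, t) =
        exT (f : BB T).1 (x, 1, t) + exT (g : BB T).1 (x, 1, t)
      rw [exT_of_mem _ hm, exT_of_mem _ hm, exT_of_mem _ hm]
      rfl
  · intro a b t x h0 hT hx
    exact at1_R a b t x h0 hT hx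
  · intro f k t x h0 hT hx
    exact at1_UV f k t x h0 hT hx
  · intro f hV z t
    have h1 := const_q f hV (sph_ne (Prod.fst z)) (sph_ne (Prod.snd z)) t.2.1 t.2.2
    change _ = exT (f : BB T).1 _
    rw [← h1, exT_of_mem _ (zz_mem z t)]
    rfl

end Pool.Agent.Helper60.RF
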