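import Pool.Agent.Helper47.RF.CoreGoals

namespace Pool.Agent.Helper60.RF

open Set Filter Topology Pool.Agent.Helper47.RF

/-- a function with a maximum at the right end point has a nonnegative one-sided derivative there -/
theorem deriv_nonneg_of_max {a b t0 : ℝ} {f : ℝ → ℝ} {f' : ℝ} (hab : a < t0) (htb : t0 ≤ b)
    (hd : HasDerivWithinAt f f' (Icc a b) t0) (hmax : ∀ s ∈ Icc a t0, f s ≤ f t0) : 0 ≤ f' := by
  have h1 : HasDerivWithinAt f f' (Icc a t0) t0 := hd.mono (Icc_subset_Icc_right htb)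
  rw [hasDerivWithinAt_iff_tendsto_slope] at h1
  have hset : Icc a t0 \ {t0} = Ico a t0 := by
    ext s
    simp only [Set.mem_sdiff, mem_Icc, mem_singleton_iff, mem_Ico]
    constructor
    · rintro ⟨⟨h1, h2⟩, h3⟩
      exact ⟨h1, lt_of_le_of_ne h2 h3⟩
    · rintro ⟨h1, h2⟩
      exact ⟨⟨h1, h2.le⟩, ne_of_lt h2⟩
  rw [hset] at h1
  have hne : (𝓝[Ico a t0] t0).NeBot := by
    rw [← mem_closure_iff_nhdsWithin_neBot, closure_Ico (ne_of_lt hab)]
    exact ⟨hab.le, le_rfl⟩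
  refine ge_of_tendsto h1 ?_
  filter_upwards [self_mem_nhdsWithin] with s hs
  rw [slope_def_field]
  have h2 := hmax s ⟨hs.1, hs.2.le⟩
  exact div_nonneg_of_nonpos (by linarith) (by linarith [hs.2])

theorem goal_C12 : Goal_C12 := by
  intro a b K u u' hab hu ha hmax t1 x1 ht1 hx1
  by_contra hcon
  push Not at hcon
  -- choice of δ
  obtain ⟨δ, hδ, hδ1⟩ : ∃ δ : ℝ, 0 < δ ∧ K < u t1 x1 - δ * (t1 - a) := by
    refine ⟨(u t1 x1 - K) / (2 * (t1 - a + 1)), ?_, ?_⟩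
    · apply div_pos (by linarith)
      have := ht1.1
      linarith
    · have h0 : 0 ≤ t1 - a := by linarith [ht1.1]
      have h1 : (u t1 x1 - K) / (2 * (t1 - a + 1)) * (t1 - a) ≤ (u t1 x1 - K) / 2 := by
        rw [div_mul_eq_mul_div, div_le_div_iff₀ (by linarith) (by norm_num)]
        nlinarith
      linarith
  have hcomp : IsCompact (Icc a b ×ˢ Metric.sphere (0 : HH) 1) := isCompact_Icc.prod (isCompact_sphere _ _)
  have hsub : Icc a b ×ˢ Metric.sphere (0 : HH) 1 ⊆ Icc a b ×ˢ ({0}ᶜ : Set HH) := by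
    rintro ⟨s, y⟩ ⟨h1, h2⟩
    refine ⟨h1, ?_⟩
    intro h3
    simp only [mem_singleton_iff] at h3
    rw [h3] at h2
    simp at h2
  have hcont : ContinuousOn (fun p : ℝ × HH => u p.1 p.2 - δ * (p.1 - a))
      (Icc a b ×ˢ Metric.sphere (0 : HH) 1) := by
    have h := (hu.fam.cont []).mono hsub
    have h' : ContinuousOn (fun p : ℝ × HH => u p.1 p.2) (Icc a b ×ˢ Metric.sphere (0 : HH) 1) := h
    refine h'.sub ?_
    fun_prop
  -- normalisation
  have hnorm : ∀ t ∈ Icc a b, ∀ y : HH, y ≠ 0 → ‖y‖⁻¹ • y ∈ Metric.sphere (0 : HH) 1 ∧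
      u t (‖y‖⁻¹ • y) = u t y := by
    intro t ht y hy
    have hpos : 0 < ‖y‖ := norm_pos_iff.mpr hy
    refine ⟨?_, (hu.fam.sm t ht).hom _ _ (inv_pos.mpr hpos)⟩
    rw [mem_sphere_zero_iff_norm, norm_smul, norm_inv, norm_norm, inv_mul_cancel₀ hpos.ne']
  obtain ⟨p, hp, hpmax⟩ := hcomp.exists_isMaxOn
    ⟨(t1, ‖x1‖⁻¹ • x1), ht1, (hnorm t1 ht1 x1 hx1).1⟩ hcont
  obtain ⟨t0, x0⟩ := p
  obtain ⟨ht0, hx0⟩ := hp
  simp only at ht0 hx0
  have hx0' : x0 ≠ 0 := by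
    intro h
    rw [h] at hx0
    simp at hx0
  have hM : ∀ t ∈ Icc a b, ∀ y : HH, y ≠ 0 → u t y - δ * (t - a) ≤ u t0 x0 - δ * (t0 - a) := by
    intro t ht y hy
    obtain ⟨h1, h2⟩ := hnorm t ht y hy
    have h3 : (t, ‖y‖⁻¹ • y) ∈ Icc a b ×ˢ Metric.sphere (0 : HH) 1 := ⟨ht, h1⟩
    have h4 := hpmax h3
    simp only [mem_ofPred_eq] at h4
    rw [h2] at h4
    exact h4
  have h5 := hM t1 ht1 x1 hx1
  have hat0 : a < t0 := by
    rcases lt_or_eq_of_le ht0.1 with h | h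
    · exact h
    · exfalso
      have := ha x0 hx0'
      rw [← h] at h5
      have h6 : δ * (a - a) = 0 := by ring
      linarith
  have hd0 : 0 ≤ δ * (t0 - a) := mul_nonneg hδ.le (by linarith)
  have h7 := hmax t0 x0 hat0 ht0.2 hx0' (by linarith) (by
    intro y hy
    have := hM t0 ht0 y hy
    linarith)
  have hder : HasDerivWithinAt (fun s => u s x0) (u' t0 x0) (Icc a b) t0 := hu.der [] x0 hx0' t0 ht0
  have hder2 : HasDerivWithinAt (fun s => u s x0 - δ * (s - a)) (u' t0 x0 - δ) (Icc a b) t0 := by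
    have h8 : HasDerivWithinAt (fun s : ℝ => δ * (s - a)) (δ * 1) (Icc a b) t0 :=
      ((hasDerivWithinAt_id t0 _).sub_const a).const_mul δ
    rw [mul_one] at h8
    exact hder.sub h8
  have h9 := deriv_nonneg_of_max hat0 ht0.2 hder2 (by
    intro s hs
    exact hM s ⟨hs.1, hs.2.trans ht0.2⟩ x0 hx0')
  linarith

end Pool.Agent.Helper60.RF
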