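import Pool.Agent.Helper73.RF.GoalsE
import Pool.Agent.Helper60.RF.D6

/-!
# Project RF, packet LNK: the formulas of `FR` in the concrete algebra are Core's
-/

set_option autoImplicit false

open Finset Pool.Agent.Helper47.RF

open Pool.Agent.Helper73.RF hiding eps

namespace Pool.Agent.Helper60.RF

/-- the Levi-Civita symbol of Helper73 -/
abbrev e7 : Fin 3 → Fin 3 → Fin 3 → ℝ := Pool.Agent.Helper73.RF.eps

theorem eps_eq (i j k : Fin 3) : e7 i j k = Pool.Agent.Helper47.RF.eps i j k := by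
  fin_cases i <;> fin_cases j <;> fin_cases k <;>
    simp [e7, Pool.Agent.Helper73.RF.eps, Pool.Agent.Helper47.RF.eps] <;> norm_num

/-- an element of the algebra which is given by a family -/
structure Rep {T : ℝ} (f : (baC T).B) (u : ℝ → HH → ℝ) : Prop where
  js : JS T u
  eq : ∀ p : Om T, (f : BB T).1 p = u p.1.2.2 p.1.1

section rep

variable {T : ℝ} {f g : (baC T).B} {u v : ℝ → HH → ℝ}

theorem rep_emb (u : ℝ → HH → ℝ) (hu : JS T u) : Rep (emb u hu) u := ⟨hu, fun _ => rfl⟩

theorem Rep.emb_eq (h : Rep f u) : f = emb u h.js := Subtype.ext (funext h.eq)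

theorem Rep.ev (h : Rep f u) (z : (baC T).Z) (t : TI T) :
    (baC T).ev z t f = u t (Prod.fst z : Metric.sphere (0 : HH) 1) := h.eq _

theorem Rep.unique (h : Rep f u) (h' : Rep g u) : f = g :=
  Subtype.ext (funext fun p => (h.eq p).trans (h'.eq p).symm)

theorem Rep.congr (h : Rep f u)
    (huv : ∀ t x, 0 < t → t < T → x ≠ 0 → u t x = v t x) : Rep f v := by
  refine ⟨⟨h.js.cd.congr fun p hp => (huv p.2 p.1 hp.2.1 hp.2.2 hp.1).symm,
    fun t h1 h2 r x hr => ?_⟩, fun p => ?_⟩
  · by_cases hx : x = 0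
    · rw [hx, smul_zero]
    · rw [← huv t x h1 h2 hx, ← huv t _ h1 h2 (smul_ne_zero hr.ne' hx)]
      exact h.js.hom t h1 h2 r x hr
  · rw [h.eq p]
    exact huv _ _ p.2.2.2.1 p.2.2.2.2 p.2.1

theorem Rep.mul (hf : Rep f u) (hg : Rep g v) : Rep (f * g) (fun t x => u t x * v t x) := by
  refine ⟨⟨hf.js.cd.mul hg.js.cd, fun t h1 h2 r x hr => ?_⟩, fun p => ?_⟩
  · show u t (r • x) * v t (r • x) = u t x * v t x
    rw [hf.js.hom t h1 h2 r x hr, hg.js.hom t h1 h2 r x hr]
  · change (f : BB T).1 p * (g : BB T).1 p = _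
    rw [hf.eq, hg.eq]

theorem Rep.add (hf : Rep f u) (hg : Rep g v) : Rep (f + g) (fun t x => u t x + v t x) := by
  refine ⟨⟨hf.js.cd.add hg.js.cd, fun t h1 h2 r x hr => ?_⟩, fun p => ?_⟩
  · show u t (r • x) + v t (r • x) = u t x + v t x
    rw [hf.js.hom t h1 h2 r x hr, hg.js.hom t h1 h2 r x hr]
  · change (f : BB T).1 p + (g : BB T).1 p = _
    rw [hf.eq, hg.eq]

theorem Rep.sub (hf : Rep f u) (hg : Rep g v) : Rep (f - g) (fun t x => u t x - v t x) := by
  refine ⟨⟨hf.js.cd.sub hg.js.cd, fun t h1 h2 r x hr => ?_⟩, fun p => ?_⟩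
  · show u t (r • x) - v t (r • x) = u t x - v t x
    rw [hf.js.hom t h1 h2 r x hr, hg.js.hom t h1 h2 r x hr]
  · change (f : BB T).1 p - (g : BB T).1 p = _
    rw [hf.eq, hg.eq]

theorem Rep.smul (c : ℝ) (hf : Rep f u) : Rep (c • f) (fun t x => c * u t x) := by
  refine ⟨⟨contDiffOn_const.mul hf.js.cd, fun t h1 h2 r x hr => ?_⟩, fun p => ?_⟩
  · show c * u t (r • x) = c * u t x
    rw [hf.js.hom t h1 h2 r x hr]
  · change c * (f : BB T).1 p = _
    rw [hf.eq]

theorem rep_zero : Rep (0 : (baC T).B) (fun _ _ => 0) :=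
  ⟨⟨contDiffOn_const, fun _ _ _ _ _ _ => rfl⟩, fun _ => rfl⟩

theorem rep_one : Rep (1 : (baC T).B) (fun _ _ => 1) :=
  ⟨⟨contDiffOn_const, fun _ _ _ _ _ _ => rfl⟩, fun _ => rfl⟩

theorem Rep.sum {ι : Type} (s : Finset ι) {f : ι → (baC T).B} {u : ι → ℝ → HH → ℝ}
    (h : ∀ i ∈ s, Rep (f i) (u i)) : Rep (∑ i ∈ s, f i) (fun t x => ∑ i ∈ s, u i t x) := by
  classical
  induction s using Finset.induction_on with
  | empty => simpa using rep_zero
  | insert a s ha ih =>
    rw [sum_insert ha]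
    simp only [sum_insert ha]
    exact (h a (mem_insert_self a s)).add (ih fun i hi => h i (mem_insert_of_mem hi))

theorem Rep.E (hf : Rep f u) (i : Fin 3) :
    Rep ((baC T).E i f) (fun t => Pool.Agent.Helper47.RF.E i (u t)) := by
  obtain ⟨-, -, h, -⟩ := part1 u hf.js
  obtain ⟨hE, he⟩ := h i
  rw [← hf.emb_eq] at he
  rw [he]
  exact rep_emb _ hE

end rep

section main

variable {T : ℝ} {A θ : ℝ → MF} (hA : JM T A) (ht : JM T θ)

theorem rep_M (i j : Fin 3) : Rep (embM hA i j) (fun t x => A t x i j) := rep_emb _ _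

theorem rep_g (i j : Fin 3) : Rep (FR.g (embM ht) i j) (fun t x => gOf (θ t) x i j) := by
  unfold FR.g
  exact (Rep.sum univ fun a _ => (rep_M ht i a).mul (rep_M ht j a)).congr
    fun t x _ _ _ => by simp [gOf, Matrix.mul_apply]

theorem gOf_inv {A θ : MF} {x : HH} (h : A x * θ x = 1) :
    (gOf θ x)⁻¹ = (A x).transpose * A x := by
  apply Matrix.inv_eq_right_inv
  unfold gOf
  have h1 : θ x * A x = 1 := mul_eq_one_comm.1 h
  have h2 : (θ x).transpose * (A x).transpose = 1 := by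
    rw [← Matrix.transpose_mul, h, Matrix.transpose_one]
  calc θ x * (θ x).transpose * ((A x).transpose * A x)
      = θ x * ((θ x).transpose * (A x).transpose) * A x := by simp only [Matrix.mul_assoc]
    _ = 1 := by rw [h2, Matrix.mul_one, h1]

theorem rep_gi (hinv : ∀ t, 0 < t → t < T → ∀ x, A t x * θ t x = 1) (i j : Fin 3) :
    Rep (FR.gi (embM hA) i j) (fun t x => (gOf (θ t) x)⁻¹ i j) := by
  unfold FR.gi
  exact (Rep.sum univ fun a _ => (rep_M hA a i).mul (rep_M hA a j)).congr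
    fun t x h0 hT _ => by
      rw [gOf_inv (A := A t) (hinv t h0 hT x)]
      simp [Matrix.mul_apply]

theorem rep_KL (i j k : Fin 3) :
    Rep (FR.KL (baC T).E (embM ht) i j k) (fun t => GamL (gOf (θ t)) i j k) := by
  have hg := fun i j => rep_g ht i j
  unfold FR.KL
  refine (Rep.smul (1 / 2) (((((hg j k).E i).add ((hg i k).E j)).sub ((hg i j).E k)).add
    (Rep.smul 2 (Rep.sum univ fun l _ => (((hg l k).smul (e7 i j l)).sub
      ((hg l j).smul (e7 i k l))).sub ((hg l i).smul (e7 j k l)))))).congr ?_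
  intro t x h0 hT hx
  simp only [GamL, eps_eq]
  ring

theorem rep_KE (hinv : ∀ t, 0 < t → t < T → ∀ x, A t x * θ t x = 1) (i j k : Fin 3) :
    Rep (FR.KE (baC T).E (embM hA) (embM ht) i j k) (fun t => Gam (gOf (θ t)) i j k) := by
  unfold FR.KE
  exact (Rep.sum univ fun m _ => (rep_gi hA hinv k m).mul (rep_KL ht i j m)).congr
    fun t x _ _ _ => rfl

theorem rep_RE (hinv : ∀ t, 0 < t → t < T → ∀ x, A t x * θ t x = 1) (i j k l : Fin 3) :
    Rep (FR.RE (baC T).E (embM hA) (embM ht) i j k l) (fun t => Rup (gOf (θ t)) i j k l) := by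
  have hK := fun i j k => rep_KE hA ht hinv i j k
  unfold FR.RE
  refine (((((hK j k l).E i).sub ((hK i k l).E j)).add (Rep.sum univ fun m _ =>
    ((hK j k m).mul (hK i m l)).sub ((hK i k m).mul (hK j m l)))).sub
    (Rep.smul 2 (Rep.sum univ fun m _ => (hK m k l).smul (e7 i j m)))).congr ?_
  intro t x h0 hT hx
  simp only [Rup, eps_eq]

theorem rep_ite (a b : Fin 3) :
    Rep (if a = b then (1 : (baC T).B) else 0) (fun _ _ => if a = b then 1 else 0) := by
  split_ifs
  · exact rep_one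
  · exact rep_zero

theorem frameHyp (hax : (baC T).Ax) (hinv : ∀ t, 0 < t → t < T → ∀ x, A t x * θ t x = 1) :
    FrameHyp (baC T).E (embM hA) (embM ht) where
  EE := hax.EE
  At a b := by
    refine Rep.unique ((Rep.sum univ fun i _ => (rep_M hA a i).mul (rep_M ht i b)).congr ?_)
      (rep_ite a b)
    intro t x h0 hT _
    have h := congrFun (congrFun (hinv t h0 hT x) a) b
    rw [Matrix.mul_apply, Matrix.one_apply] at h
    exact h
  tA i j := by
    refine Rep.unique ((Rep.sum univ fun a _ => (rep_M ht i a).mul (rep_M hA a j)).congr ?_)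
      (rep_ite i j)
    intro t x h0 hT _
    have hh : θ t x * A t x = 1 := mul_eq_one_comm.1 (hinv t h0 hT x)
    have h := congrFun (congrFun hh i) j
    rw [Matrix.mul_apply, Matrix.one_apply] at h
    exact h

end main

theorem half_zero {T : ℝ} {a : (baC T).B} (h : (2 : ℝ) • a = 0) : a = 0 := by
  have h1 : a = (1 / 2 : ℝ) • ((2 : ℝ) • a) := by
    rw [smul_smul]
    norm_num
  rw [h1, h, smul_zero]

theorem indE {T : ℝ} (hax : (baC T).Ax) (a : Fin 3 → (baC T).B)
    (h : ∀ f, ∑ i, a i * (baC T).E i f = 0) : ∀ i, a i = 0 := by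
  have key : ∀ d f : Fin 3, (2 : ℝ) • ∑ i, e7 i d f • a i = 0 := by
    intro d f
    have h1 : ∑ c, (baC T).X c f * ∑ i, a i * (baC T).E i ((baC T).X c d) = 0 := by
      apply sum_eq_zero
      intro c _
      rw [h, mul_zero]
    rw [← h1]
    have h2 : ∀ c, (baC T).X c f * ∑ i, a i * (baC T).E i ((baC T).X c d) =
        (2 : ℝ) • ∑ i, ∑ e, e7 i d e • (a i * ((baC T).X c e * (baC T).X c f)) := by
      intro c
      simp only [hax.EX, mul_sum, smul_sum, mul_smul_comm]
      refine sum_congr rfl fun i _ => sum_congr rfl fun e _ => ?_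
      congr 2
      ring
    simp only [h2]
    rw [← smul_sum, sum_comm]
    congr 1
    refine sum_congr rfl fun i _ => ?_
    rw [sum_comm]
    have h3 : ∀ e, ∑ c, e7 i d e • (a i * ((baC T).X c e * (baC T).X c f)) =
        e7 i d e • (a i * if e = f then 1 else 0) := by
      intro e
      rw [← smul_sum, ← mul_sum, hax.XtX]
    simp only [h3]
    rw [sum_eq_single f]
    · rw [if_pos rfl, mul_one]
    · intro e _ he
      rw [if_neg he, mul_zero, smul_zero]
    · intro hf
      exact absurd (mem_univ f) hf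
  have k0 := key 1 2
  have k1 := key 2 0
  have k2 := key 0 1
  intro i
  apply half_zero
  fin_cases i
  · simpa [Fin.sum_univ_three, e7, Pool.Agent.Helper73.RF.eps] using k0
  · simpa [Fin.sum_univ_three, e7, Pool.Agent.Helper73.RF.eps] using k1
  · simpa [Fin.sum_univ_three, e7, Pool.Agent.Helper73.RF.eps] using k2

theorem contrA (g : Fin 3 → ℝ) (l : Fin 3) :
    ∑ c, ∑ d, e7 c d l * ∑ l', e7 c d l' * g l' = 2 * g l := by
  fin_cases l <;> simp [Fin.sum_univ_three, e7, Pool.Agent.Helper73.RF.eps] <;> ring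

theorem contrB (g : Fin 3 → ℝ) (k : Fin 3) :
    ∑ b, ∑ f, e7 k b f * ∑ k', e7 k' b f * g k' = 2 * g k := by
  fin_cases k <;> simp [Fin.sum_univ_three, e7, Pool.Agent.Helper73.RF.eps] <;> ring

theorem contr (n : Fin 3 → Fin 3 → ℝ) (l k : Fin 3) :
    ∑ c, ∑ d, ∑ b, ∑ f, e7 c d l * e7 k b f *
      (-∑ k', ∑ l', (e7 c d l' * e7 k' b f) * n l' k') = -4 * n l k := by
  have h1 : ∀ c d, ∑ b, ∑ f, e7 c d l * e7 k b f *
      (-∑ k', ∑ l', (e7 c d l' * e7 k' b f) * n l' k') =
      -(e7 c d l * (2 * ∑ l', e7 c d l' * n l' k)) := by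
    intro c d
    rw [← contrB (fun k' => ∑ l', e7 c d l' * n l' k') k]
    simp only [mul_sum, mul_neg, ← sum_neg_distrib]
    refine sum_congr rfl fun b _ => sum_congr rfl fun f _ => sum_congr rfl fun k' _ =>
      sum_congr rfl fun l' _ => ?_
    ring
  simp only [h1]
  have h2 : ∑ c, ∑ d, -(e7 c d l * (2 * ∑ l', e7 c d l' * n l' k)) =
      -2 * ∑ c, ∑ d, e7 c d l * ∑ l', e7 c d l' * n l' k := by
    simp only [mul_sum, ← sum_neg_distrib]
    refine sum_congr rfl fun c _ => sum_congr rfl fun d _ => sum_congr rfl fun l' _ => ?_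
    ring
  rw [h2, contrA (fun l' => n l' k) l]
  ring

/-- **Packet LNK.** -/
theorem lnk (hGeo : GeoStmt) (hDax : DaxStmt) (hNsy : NsyStmt) : LnkStmt := by
  intro T A θ hA ht hinv z t
  have hax := hDax T
  have hF := frameHyp hA ht hax hinv
  obtain ⟨-, hg2, hg3⟩ := hGeo _ _ _ _ hF
  have hsym := hNsy _ _ _ _ hF (fun a h => indE hax a h)
  set x : HH := Subtype.val (Prod.fst z : Metric.sphere (0 : HH) 1) with hx
  set n : Fin 3 → Fin 3 → ℝ := fun l k =>
    (baC T).ev z t (FR.N (baC T).E (embM hA) (embM ht) l k) with hn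
  have eA : ∀ a i, (baC T).ev z t (embM hA a i) = A t x a i := fun a i => rfl
  have eR : ∀ i j k l, (baC T).ev z t (FR.RE (baC T).E (embM hA) (embM ht) i j k l) =
      Rup (gOf (θ t)) i j k l x := fun i j k l => (rep_RE hA ht hinv i j k l).ev z t
  have eg : ∀ i j, (baC T).ev z t (FR.g (embM ht) i j) = gOf (θ t) x i j :=
    fun i j => (rep_g ht i j).ev z t
  refine ⟨fun l k => ?_, fun a b => ?_⟩
  · change n l k = _
    unfold Nc
    have h1 : ∀ c d b f, ∑ i, ∑ j, ∑ p, ∑ r, Rm (gOf (θ t)) i j p r x * A t x c i * A t x d j *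
        A t x b p * A t x f r = -∑ k', ∑ l', (e7 c d l' * e7 k' b f) * n l' k' := by
      intro c d b f
      have h2 := congrArg ((baC T).ev z t) (hg2 c d b f)
      simp only [map_sum, map_mul, map_neg, map_smul, eA, eR, eg, smul_eq_mul] at h2
      rw [← h2]
      refine sum_congr rfl fun i _ => sum_congr rfl fun j _ => sum_congr rfl fun p _ =>
        sum_congr rfl fun r _ => ?_
      unfold Rm
      ring
    simp only [h1, ← eps_eq]
    rw [contr]
    ring
  · have h2 := congrArg ((baC T).ev z t) (hg3 a b)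
    unfold FR.Ricf
    rw [hsym b a] at h2
    rw [← h2]
    simp only [map_sum, map_mul, eA, eR]
    rfl

end Pool.Agent.Helper60.RF
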