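import Pool.Agent.Helper64.RF.GoalsD

open Quaternion Pool.Agent.Helper64.RF

namespace Pool.Agent.Helper60.RF

theorem continuous_vel {c : ℝ → ℍ[ℝ]} (hc : C1 c) : Continuous (vel c) := by
  have h1 : Continuous (deriv c) := hc.1.continuous_deriv le_rfl
  have h2 : Continuous (fun t => (c t)⁻¹) := hc.1.continuous.inv₀ hc.2
  exact imL.continuous.comp (h2.mul h1)

theorem continuous_speed {g : ℍ[ℝ] → W →L[ℝ] W →L[ℝ] ℝ} (hg : Met g) {c : ℝ → ℍ[ℝ]} (hc : C1 c) :
    Continuous (fun s => g (c s) (vel c s) (vel c s)) := by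
  have h1 : Continuous (fun s => g (c s)) := by
    rw [continuous_iff_continuousAt]
    intro t
    exact (hg.smooth.continuousAt (hc.2 t)).comp hc.1.continuous.continuousAt
  exact (h1.clm_apply (continuous_vel hc)).clm_apply (continuous_vel hc)

theorem speed_nonneg {g : ℍ[ℝ] → W →L[ℝ] W →L[ℝ] ℝ} (hg : Met g) {x : ℍ[ℝ]} (hx : x ≠ 0) (v : W) :
    0 ≤ g x v v := by
  by_cases hv : v = 0
  · rw [hv]; simp
  · exact (hg.pos x hx v hv).le

theorem rep : REP := by
  intro g hg c hc θ hθ0 hθ1 hmin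
  set f : ℝ → ℝ := fun s => g (c s) (vel c s) (vel c s) with hf
  have hfc : Continuous f := continuous_speed hg hc
  have hf0 : ∀ s, 0 ≤ f s := fun s => speed_nonneg hg (hc.2 s) _
  set u := Real.sqrt θ with hu
  have hu0 : 0 < u := Real.sqrt_pos.mpr hθ0
  have huθ : u ^ 2 = θ := Real.sq_sqrt hθ0.le
  have hu1 : u ≤ 1 := by
    have : u ^ 2 ≤ 1 := by rw [huθ]; exact hθ1
    nlinarith
  have hpi := Real.pi_pos
  set φ : ℝ → ℝ := fun t => t - u / (4 * Real.pi) * Real.sin (2 * Real.pi * t) with hφ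
  set φ' : ℝ → ℝ := fun t => 1 - u / 2 * Real.cos (2 * Real.pi * t) with hφ'
  have hder : ∀ t, HasDerivAt φ (φ' t) t := by
    intro t
    have h1 : HasDerivAt (fun t : ℝ => 2 * Real.pi * t) (2 * Real.pi) t := by
      simpa using (hasDerivAt_id t).const_mul (2 * Real.pi)
    have h2 := (h1.sin.const_mul (u / (4 * Real.pi)))
    have h3 := (hasDerivAt_id t).sub h2
    have e : 1 - u / (4 * Real.pi) * (Real.cos (2 * Real.pi * t) * (2 * Real.pi)) = φ' t := by
      simp only [hφ']
      field_simp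
      ring
    rw [← e]
    exact h3
  have hφ0 : φ 0 = 0 := by simp [hφ]
  have hφ1 : φ 1 = 1 := by simp [hφ]
  have hφs : ContDiff ℝ 1 φ := by
    simp only [hφ]
    fun_prop
  have hφ'c : Continuous φ' := by
    simp only [hφ']
    fun_prop
  have hφ'pos : ∀ t, 0 ≤ φ' t := by
    intro t
    have := Real.cos_le_one (2 * Real.pi * t)
    have h2 := Real.neg_one_le_cos (2 * Real.pi * t)
    simp only [hφ']
    nlinarith
  -- the reparametrised curve
  have hc' : C1 (c ∘ φ) := ⟨hc.1.comp hφs, fun t => hc.2 (φ t)⟩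
  have hcd : ∀ s, DifferentiableAt ℝ c s := fun s => (hc.1.differentiable (by norm_num)).differentiableAt
  have hvel : ∀ t, vel (c ∘ φ) t = φ' t • vel c (φ t) := by
    intro t
    have h1 : HasDerivAt (c ∘ φ) (φ' t • deriv c (φ t)) t :=
      HasDerivAt.scomp t (hcd (φ t)).hasDerivAt (hder t)
    simp only [vel, h1.deriv, Function.comp_apply, mul_smul_comm, im_smul]
  have hEn : En g (c ∘ φ) = ∫ t in (0:ℝ)..1, f (φ t) * φ' t * φ' t := by
    unfold En
    congr 1
    funext t
    rw [hvel t]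
    simp only [Function.comp_apply, map_smul, ContinuousLinearMap.smul_apply, smul_eq_mul, hf]
    ring
  set H : ℝ → ℝ := fun s => f s * (1 - u / 2 * Real.cos (2 * Real.pi * s) + u ^ 2 / 4) with hH
  have hHc : Continuous H := by
    simp only [hH]
    fun_prop
  have hφc : Continuous φ := hφs.continuous
  have hbound : ∀ t, f (φ t) * φ' t * φ' t ≤ H (φ t) * φ' t := by
    intro t
    have h1 : |Real.cos (2 * Real.pi * φ t) - Real.cos (2 * Real.pi * t)| ≤ u / 2 := by
      have h2 : |Real.cos (2 * Real.pi * φ t) - Real.cos (2 * Real.pi * t)| ≤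
          |2 * Real.pi * φ t - 2 * Real.pi * t| := Real.abs_cos_sub_cos_le _ _
      have h3 : 2 * Real.pi * φ t - 2 * Real.pi * t = -(u / 2 * Real.sin (2 * Real.pi * t)) := by
        simp only [hφ]
        field_simp
        ring
      rw [h3, abs_neg, abs_mul, abs_of_pos (by linarith : 0 < u / 2)] at h2
      have h4 := Real.abs_sin_le_one (2 * Real.pi * t)
      nlinarith
    have h5 : φ' t ≤ 1 - u / 2 * Real.cos (2 * Real.pi * φ t) + u ^ 2 / 4 := by
      have := (abs_le.mp h1).2
      simp only [hφ']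
      nlinarith
    have h6 : f (φ t) * φ' t ≤ H (φ t) := by
      simp only [hH]
      exact mul_le_mul_of_nonneg_left h5 (hf0 _)
    exact mul_le_mul_of_nonneg_right h6 (hφ'pos t)
  have hle : En g (c ∘ φ) ≤ ∫ s in (0:ℝ)..1, H s := by
    rw [hEn]
    have h1 : ∫ t in (0:ℝ)..1, f (φ t) * φ' t * φ' t ≤ ∫ t in (0:ℝ)..1, H (φ t) * φ' t := by
      apply intervalIntegral.integral_mono_on zero_le_one
      · exact (Continuous.intervalIntegrable (((hfc.comp hφc).mul hφ'c).mul hφ'c) _ _)
      · exact (Continuous.intervalIntegrable ((hHc.comp hφc).mul hφ'c) _ _)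
      · intro t _
        exact hbound t
    have h2 : ∫ t in (0:ℝ)..1, (H ∘ φ) t * φ' t = ∫ s in φ 0..φ 1, H s :=
      intervalIntegral.integral_comp_mul_deriv (fun t _ => hder t) hφ'c.continuousOn hHc
    rw [hφ0, hφ1] at h2
    have h3 : ∫ t in (0:ℝ)..1, H (φ t) * φ' t = ∫ s in (0:ℝ)..1, H s := h2
    linarith
  have hHint : ∫ s in (0:ℝ)..1, H s = (1 + u ^ 2 / 4) * En g c -
      u / 2 * ∫ s in (0:ℝ)..1, f s * Real.cos (2 * Real.pi * s) := by
    have e1 : ∀ s, H s = (1 + u ^ 2 / 4) * f s - u / 2 * (f s * Real.cos (2 * Real.pi * s)) := by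
      intro s
      simp only [hH]
      ring
    have e2 : ∫ s in (0:ℝ)..1, H s = ∫ s in (0:ℝ)..1,
        ((1 + u ^ 2 / 4) * f s - u / 2 * (f s * Real.cos (2 * Real.pi * s))) := by
      congr 1
      funext s
      exact e1 s
    rw [e2, intervalIntegral.integral_sub, intervalIntegral.integral_const_mul,
      intervalIntegral.integral_const_mul]
    · rfl
    · exact Continuous.intervalIntegrable (by fun_prop) _ _
    · exact Continuous.intervalIntegrable (by fun_prop) _ _
  have hm := hmin (c ∘ φ) hc' (by simp [hφ0]) (by simp [hφ1])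
  rw [hHint] at hle
  set I := ∫ s in (0:ℝ)..1, f s * Real.cos (2 * Real.pi * s) with hI
  have h7 : u / 2 * I ≤ θ + u ^ 2 / 4 * En g c := by nlinarith
  rw [← huθ] at h7
  have h8 : u * I ≤ u * (u * (2 + En g c / 2)) := by nlinarith
  exact le_of_mul_le_mul_left h8 hu0

end Pool.Agent.Helper60.RF
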