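import Pool.Agent.Helper73.RF.GoalsF

/-!
# Project RF, packet SMO: smoothing of the distance function
-/

set_option autoImplicit false

open Finset Pool.Agent.Helper47.RF
open Pool.Agent.Helper73.RF hiding eps

namespace Pool.Agent.Helper60.RF

/-! ### one-parameter groups -/

/-- imaginary quaternion with given components -/
def io (n : Fin 3 → ℝ) : HH := ⟨0, n 0, n 1, n 2⟩

/-- `exp (s n)` for a unit vector `n` -/
noncomputable def ee (n : Fin 3 → ℝ) (s : ℝ) : HH := Real.cos s • (1 : HH) + Real.sin s • io n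

theorem q1r : QuaternionAlgebra.re (1 : HH) = 1 := rfl
theorem q1i : QuaternionAlgebra.imI (1 : HH) = 0 := rfl
theorem q1j : QuaternionAlgebra.imJ (1 : HH) = 0 := rfl
theorem q1k : QuaternionAlgebra.imK (1 : HH) = 0 := rfl

theorem io_sq {n : Fin 3 → ℝ} (hn : ∑ i, n i ^ 2 = 1) : io n * io n = -1 := by
  rw [Fin.sum_univ_three] at hn
  ext
  · simp [io, q1r]; nlinarith
  · simp [io, q1i]; ring
  · simp [io, q1j]; ring
  · simp [io, q1k]; ring

theorem ee_zero (n : Fin 3 → ℝ) : ee n 0 = 1 := by simp [ee]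

theorem norm_sq_q (a : HH) : ‖a‖ ^ 2 = a.re ^ 2 + a.imI ^ 2 + a.imJ ^ 2 + a.imK ^ 2 := by
  rw [sq, ← Quaternion.normSq_eq_norm_mul_self, Quaternion.normSq_def']

theorem norm_ee {n : Fin 3 → ℝ} (hn : ∑ i, n i ^ 2 = 1) (s : ℝ) : ‖ee n s‖ = 1 := by
  have h : ‖ee n s‖ ^ 2 = 1 := by
    rw [norm_sq_q]
    rw [Fin.sum_univ_three] at hn
    simp [ee, io, q1r, q1i, q1j, q1k]
    have := Real.sin_sq_add_cos_sq s
    linear_combination this + Real.sin s ^ 2 * hn
  have h0 := norm_nonneg (ee n s)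
  nlinarith

theorem norm_io {n : Fin 3 → ℝ} (hn : ∑ i, n i ^ 2 = 1) : ‖io n‖ = 1 := by
  have h : ‖io n‖ ^ 2 = 1 := by
    rw [norm_sq_q]
    rw [Fin.sum_univ_three] at hn
    simp [io]
    linear_combination hn
  have h0 := norm_nonneg (io n)
  nlinarith

theorem ee_der {n : Fin 3 → ℝ} (hn : ∑ i, n i ^ 2 = 1) (s : ℝ) :
    HasDerivAt (ee n) (ee n s * io n) s := by
  have h1 : HasDerivAt (fun s : ℝ => Real.cos s • (1 : HH)) ((-Real.sin s) • (1 : HH)) s :=
    (Real.hasDerivAt_cos s).smul_const _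
  have h2 : HasDerivAt (fun s : ℝ => Real.sin s • io n) (Real.cos s • io n) s :=
    (Real.hasDerivAt_sin s).smul_const _
  have h3 := h1.add h2
  have e : ee n s * io n = (-Real.sin s) • (1 : HH) + Real.cos s • io n := by
    unfold ee
    rw [add_mul, smul_mul_assoc, smul_mul_assoc, io_sq hn, one_mul]
    simp only [smul_neg, neg_smul]
    abel
  rw [e]
  exact h3

theorem ee_add {n : Fin 3 → ℝ} (hn : ∑ i, n i ^ 2 = 1) (s r : ℝ) :
    ee n s * ee n r = ee n (s + r) := by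
  unfold ee
  rw [Real.cos_add, Real.sin_add]
  simp only [add_mul, mul_add, smul_mul_assoc, mul_smul_comm, one_mul, mul_one, io_sq hn]
  module

theorem ee_sub_one {n : Fin 3 → ℝ} (hn : ∑ i, n i ^ 2 = 1) (s : ℝ) : ‖ee n s - 1‖ ≤ |s| := by
  have h : ‖ee n s - 1‖ ^ 2 = 2 * (1 - Real.cos s) := by
    rw [norm_sq_q]
    rw [Fin.sum_univ_three] at hn
    simp [ee, io, q1r, q1i, q1j, q1k]
    have := Real.sin_sq_add_cos_sq s
    linear_combination this + Real.sin s ^ 2 * hn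
  have h2 := Real.one_sub_sq_div_two_le_cos (x := s)
  have h3 : ‖ee n s - 1‖ ^ 2 ≤ |s| ^ 2 := by rw [h, sq_abs]; linarith
  exact (sq_le_sq₀ (norm_nonneg _) (abs_nonneg s)).mp h3

/-- every unit quaternion is `ee n θ` -/
theorem exists_ee (b : HH) (hb : ‖b‖ = 1) :
    ∃ n : Fin 3 → ℝ, ∑ i, n i ^ 2 = 1 ∧ b = ee n (Real.arccos b.re) := by
  have hs : b.re ^ 2 + b.imI ^ 2 + b.imJ ^ 2 + b.imK ^ 2 = 1 := by
    rw [← norm_sq_q, hb]; norm_num
  have hre1 : b.re ≤ 1 := by nlinarith [sq_nonneg b.imI, sq_nonneg b.imJ, sq_nonneg b.imK]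
  have hre2 : -1 ≤ b.re := by nlinarith [sq_nonneg b.imI, sq_nonneg b.imJ, sq_nonneg b.imK]
  have hc : Real.cos (Real.arccos b.re) = b.re := Real.cos_arccos hre2 hre1
  have hsn : Real.sin (Real.arccos b.re) = Real.sqrt (1 - b.re ^ 2) := Real.sin_arccos _
  by_cases h0 : 1 - b.re ^ 2 = 0
  · refine ⟨![1, 0, 0], by simp [Fin.sum_univ_three], ?_⟩
    have hI : b.imI = 0 := by
      have : b.imI ^ 2 = 0 := by nlinarith [sq_nonneg b.imI, sq_nonneg b.imJ, sq_nonneg b.imK]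
      exact pow_eq_zero_iff (two_ne_zero) |>.mp this
    have hJ : b.imJ = 0 := by
      have : b.imJ ^ 2 = 0 := by nlinarith [sq_nonneg b.imI, sq_nonneg b.imJ, sq_nonneg b.imK]
      exact pow_eq_zero_iff (two_ne_zero) |>.mp this
    have hK : b.imK = 0 := by
      have : b.imK ^ 2 = 0 := by nlinarith [sq_nonneg b.imI, sq_nonneg b.imJ, sq_nonneg b.imK]
      exact pow_eq_zero_iff (two_ne_zero) |>.mp this
    unfold ee
    rw [hc, hsn, h0, Real.sqrt_zero]
    ext <;> simp [hI, hJ, hK, q1r, q1i, q1j, q1k]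
  · have hpos : 0 < 1 - b.re ^ 2 := by
      refine lt_of_le_of_ne ?_ (Ne.symm h0)
      nlinarith [sq_nonneg b.imI, sq_nonneg b.imJ, sq_nonneg b.imK]
    set σ := Real.sqrt (1 - b.re ^ 2) with hσ
    have hσ0 : 0 < σ := Real.sqrt_pos.mpr hpos
    have hσ2 : σ ^ 2 = 1 - b.re ^ 2 := Real.sq_sqrt hpos.le
    refine ⟨![b.imI / σ, b.imJ / σ, b.imK / σ], ?_, ?_⟩
    · rw [Fin.sum_univ_three]
      simp only [Matrix.cons_val_zero, Matrix.cons_val_one, Matrix.cons_val]
      field_simp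
      rw [hσ2]
      linarith
    · unfold ee
      rw [hc, hsn]
      ext
      · simp [io, q1r]
      · simp [io, q1i]; field_simp
      · simp [io, q1j]; field_simp
      · simp [io, q1k]; field_simp

/-! ### arcs -/

/-- arc from `x` to `x * ee n θ` -/
noncomputable def arc (x : HH) (n : Fin 3 → ℝ) (θ : ℝ) : ℝ → HH := fun t => x * ee n (t * θ)

theorem arc_der (x : HH) {n : Fin 3 → ℝ} (hn : ∑ i, n i ^ 2 = 1) (θ t : ℝ) :
    HasDerivAt (arc x n θ) (θ • (arc x n θ t * io n)) t := by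
  have h1 : HasDerivAt (fun t : ℝ => t * θ) θ t := by simpa using (hasDerivAt_id t).mul_const θ
  have h2 := (ee_der hn (t * θ)).scomp t h1
  have h3 : HasDerivAt (fun t : ℝ => x * ee n (t * θ)) (x * (θ • (ee n (t * θ) * io n))) t :=
    h2.const_mul x
  have e : θ • (arc x n θ t * io n) = x * (θ • (ee n (t * θ) * io n)) := by
    unfold arc
    rw [mul_smul_comm, mul_assoc]
  rw [e]
  exact h3

theorem norm_arc {x : HH} (hx : ‖x‖ = 1) {n : Fin 3 → ℝ} (hn : ∑ i, n i ^ 2 = 1) (θ t : ℝ) :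
    ‖arc x n θ t‖ = 1 := by
  unfold arc
  rw [norm_mul, hx, norm_ee hn, one_mul]

theorem star_mul_self_unit {x : HH} (hx : ‖x‖ = 1) : star x * x = 1 := by
  rw [Quaternion.star_mul_self, Quaternion.normSq_eq_norm_mul_self, hx]
  simp

theorem self_mul_star_unit {x : HH} (hx : ‖x‖ = 1) : x * star x = 1 := by
  rw [Quaternion.self_mul_star, Quaternion.normSq_eq_norm_mul_self, hx]
  simp

theorem joins_arc {x : HH} (hx : ‖x‖ = 1) {n : Fin 3 → ℝ} (hn : ∑ i, n i ^ 2 = 1) (θ : ℝ) :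
    Joins (arc x n θ) x (x * ee n θ) := by
  refine ⟨⟨⟨|θ|, abs_nonneg θ⟩, ?_⟩, fun t => norm_arc hx hn θ t, ?_, ?_⟩
  · apply lipschitzWith_of_nnnorm_deriv_le
    · intro t
      exact (arc_der x hn θ t).differentiableAt
    · intro t
      rw [(arc_der x hn θ t).deriv]
      rw [← NNReal.coe_le_coe]
      rw [coe_nnnorm, norm_smul, norm_mul, norm_arc hx hn, norm_io hn, mul_one, mul_one]
      exact le_rfl
  · simp [arc, ee_zero]
  · simp [arc]

theorem fr_arc {x : HH} (hx : ‖x‖ = 1) {n : Fin 3 → ℝ} (hn : ∑ i, n i ^ 2 = 1) (θ t : ℝ) :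
    fr (arc x n θ t) (deriv (arc x n θ) t) = θ • n := by
  rw [(arc_der x hn θ t).deriv]
  unfold fr
  rw [mul_smul_comm, ← mul_assoc, star_mul_self_unit (norm_arc hx hn θ t), one_mul]
  funext i
  fin_cases i <;> simp [io]

theorem ip_smul (g : MF) (x : HH) (a : ℝ) (v : Fin 3 → ℝ) :
    ip g x (a • v) (a • v) = a ^ 2 * ip g x v v := by
  unfold ip
  rw [Finset.mul_sum]
  refine Finset.sum_congr rfl fun i _ => ?_
  rw [Finset.mul_sum]
  refine Finset.sum_congr rfl fun j _ => ?_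
  simp only [Pi.smul_apply, smul_eq_mul]
  ring

theorem speed_arc (g : MF) {x : HH} (hx : ‖x‖ = 1) {n : Fin 3 → ℝ} (hn : ∑ i, n i ^ 2 = 1)
    (θ t : ℝ) : speed g (arc x n θ) t = |θ| * Real.sqrt (ip g (arc x n θ t) n n) := by
  unfold speed
  rw [fr_arc hx hn, ip_smul, Real.sqrt_mul (sq_nonneg θ), Real.sqrt_sq_eq_abs]

/-! ### bounds for the metric -/

theorem entries_bdd {g : MF} (hg : IsMetric g) :
    ∃ C : ℝ, 0 < C ∧ ∀ x : HH, ‖x‖ = 1 → ∀ i j, |g x i j| ≤ C := by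
  have h : ∀ i j : Fin 3, ∃ C : ℝ, ∀ x ∈ Metric.sphere (0 : HH) 1, ‖g x i j‖ ≤ C := by
    intro i j
    apply (isCompact_sphere (0 : HH) 1).exists_bound_of_continuousOn
    refine (hg.sm i j).cd.continuousOn.mono ?_
    intro x hx
    rw [mem_sphere_zero_iff_norm] at hx
    simp only [Set.mem_compl_iff, Set.mem_singleton_iff]
    rintro rfl
    simp at hx
  choose C hC using h
  refine ⟨1 + ∑ i, ∑ j, |C i j|, by positivity, fun x hx i j => ?_⟩
  have h1 : |g x i j| ≤ C i j := hC i j x (by rw [mem_sphere_zero_iff_norm]; exact hx)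
  have h2 : |C i j| ≤ ∑ j, |C i j| :=
    Finset.single_le_sum (f := fun j => |C i j|) (fun j _ => abs_nonneg _) (Finset.mem_univ j)
  have h3 : ∑ j, |C i j| ≤ ∑ i, ∑ j, |C i j| :=
    Finset.single_le_sum (f := fun i => ∑ j, |C i j|)
      (fun i _ => Finset.sum_nonneg fun j _ => abs_nonneg _) (Finset.mem_univ i)
  have h4 := le_abs_self (C i j)
  linarith

theorem ip_le {g : MF} {C : ℝ} {x : HH} (hC : ∀ i j, |g x i j| ≤ C) {v : Fin 3 → ℝ} {K : ℝ}
    (hK0 : 0 ≤ K) (hv : ∀ i, |v i| ≤ K) : ip g x v v ≤ 9 * C * K ^ 2 := by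
  unfold ip
  have hC0 : 0 ≤ C := (abs_nonneg _).trans (hC 0 0)
  have h1 : ∀ i j : Fin 3, g x i j * v i * v j ≤ C * K ^ 2 := by
    intro i j
    have h2 : |g x i j * v i * v j| ≤ C * K * K := by
      rw [abs_mul, abs_mul]
      gcongr
      · exact hC i j
      · exact hv i
      · exact hv j
    have h3 := le_abs_self (g x i j * v i * v j)
    nlinarith
  calc ∑ i, ∑ j, g x i j * v i * v j ≤ ∑ i : Fin 3, ∑ j : Fin 3, C * K ^ 2 :=
        Finset.sum_le_sum fun i _ => Finset.sum_le_sum fun j _ => h1 i j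
    _ = 9 * C * K ^ 2 := by simp; ring

theorem abs_le_of_unit {n : Fin 3 → ℝ} (hn : ∑ i, n i ^ 2 = 1) (i : Fin 3) : |n i| ≤ 1 := by
  have h : n i ^ 2 ≤ 1 := by
    rw [← hn]
    exact Finset.single_le_sum (f := fun i => n i ^ 2) (fun j _ => sq_nonneg _) (Finset.mem_univ i)
  exact abs_le_one_iff_mul_self_le_one.mpr (by nlinarith)

theorem ip_nonneg {g : MF} (hg : IsMetric g) (x : HH) (v : Fin 3 → ℝ) : 0 ≤ ip g x v v := by
  have h := (hg.pos x).posSemidef.dotProduct_mulVec_nonneg v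
  have e : ip g x v v = star v ⬝ᵥ (g x).mulVec v := by
    unfold ip
    simp only [dotProduct, Matrix.mulVec, Finset.mul_sum, star_trivial, Pi.star_apply]
    refine Finset.sum_congr rfl fun i _ => Finset.sum_congr rfl fun j _ => ?_
    ring
  rw [e]
  exact h

theorem ip_pos {g : MF} (hg : IsMetric g) (x : HH) {v : Fin 3 → ℝ} (hv : v ≠ 0) :
    0 < ip g x v v := by
  have h := (hg.pos x).dotProduct_mulVec_pos hv
  have e : ip g x v v = star v ⬝ᵥ (g x).mulVec v := by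
    unfold ip
    simp only [dotProduct, Matrix.mulVec, Finset.mul_sum, star_trivial, Pi.star_apply]
    refine Finset.sum_congr rfl fun i _ => Finset.sum_congr rfl fun j _ => ?_
    ring
  rw [e]
  exact h

/-! ### integrability of the speed -/

theorem abs_comp_le (a : HH) : |a.imI| ≤ ‖a‖ ∧ |a.imJ| ≤ ‖a‖ ∧ |a.imK| ≤ ‖a‖ := by
  have h := norm_sq_q a
  have h0 := norm_nonneg a
  refine ⟨?_, ?_, ?_⟩
  · apply abs_le_of_sq_le_sq _ h0
    nlinarith [sq_nonneg a.re, sq_nonneg a.imI, sq_nonneg a.imJ, sq_nonneg a.imK]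
  · apply abs_le_of_sq_le_sq _ h0
    nlinarith [sq_nonneg a.re, sq_nonneg a.imI, sq_nonneg a.imJ, sq_nonneg a.imK]
  · apply abs_le_of_sq_le_sq _ h0
    nlinarith [sq_nonneg a.re, sq_nonneg a.imI, sq_nonneg a.imJ, sq_nonneg a.imK]

theorem fr_le {x : HH} (hx : ‖x‖ = 1) (w : HH) (i : Fin 3) : |fr x w i| ≤ ‖w‖ := by
  have h : ‖star x * w‖ = ‖w‖ := by rw [norm_mul, norm_star, hx, one_mul]
  have h1 := abs_comp_le (star x * w)
  rw [h] at h1
  unfold fr
  fin_cases i
  · exact h1.1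
  · exact h1.2.1
  · exact h1.2.2

theorem continuous_fr (i : Fin 3) : Continuous (fun p : HH × HH => fr p.1 p.2 i) := by
  have h : Continuous (fun p : HH × HH => star p.1 * p.2) :=
    (continuous_star.comp continuous_fst).mul continuous_snd
  unfold fr
  fin_cases i
  · exact Quaternion.continuous_imI.comp h
  · exact Quaternion.continuous_imJ.comp h
  · exact Quaternion.continuous_imK.comp h

theorem speed_integrable {g : MF} (hg : IsMetric g) {c : ℝ → HH} {K : NNReal}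
    (hc : LipschitzWith K c) (hn : ∀ t, ‖c t‖ = 1) (a b : ℝ) :
    IntervalIntegrable (speed g c) MeasureTheory.volume a b := by
  obtain ⟨C, hC0, hC⟩ := entries_bdd hg
  have hne : ∀ t, c t ≠ 0 := by
    intro t h
    have := hn t
    rw [h] at this
    simp at this
  have m1 : ∀ i j, Measurable (fun t => g (c t) i j) := by
    intro i j
    apply Continuous.measurable
    rw [continuous_iff_continuousAt]
    intro t
    have h1 : ContinuousAt (fun x => g x i j) (c t) :=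
      (hg.sm i j).cd.continuousOn.continuousAt (isOpen_compl_singleton.mem_nhds (hne t))
    exact ContinuousAt.comp (f := c) h1 hc.continuous.continuousAt
  have m2 : ∀ i, Measurable (fun t => fr (c t) (deriv c t) i) := by
    intro i
    have h1 : Measurable (fun t => (c t, deriv c t)) :=
      hc.continuous.measurable.prodMk (measurable_deriv c)
    exact (continuous_fr i).measurable.comp h1
  have m3 : Measurable (speed g c) := by
    unfold speed ip
    apply Measurable.sqrt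
    refine Finset.measurable_sum _ fun i _ => Finset.measurable_sum _ fun j _ => ?_
    exact ((m1 i j).mul (m2 i)).mul (m2 j)
  rw [intervalIntegrable_iff]
  refine MeasureTheory.IntegrableOn.of_bound measure_Ioc_lt_top m3.aestronglyMeasurable
    (Real.sqrt (9 * C * (K : ℝ) ^ 2)) ?_
  refine Filter.Eventually.of_forall fun t => ?_
  unfold speed
  rw [Real.norm_of_nonneg (Real.sqrt_nonneg _)]
  apply Real.sqrt_le_sqrt
  apply ip_le (hC (c t) (hn t)) K.2
  intro i
  exact (fr_le (hn t) _ i).trans (norm_deriv_le_of_lipschitz hc)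

theorem speed_nonneg' (g : MF) (c : ℝ → HH) (t : ℝ) : 0 ≤ speed g c t := Real.sqrt_nonneg _

theorem glen_nonneg (g : MF) (c : ℝ → HH) : 0 ≤ glen g c :=
  intervalIntegral.integral_nonneg zero_le_one fun t _ => speed_nonneg' g c t

theorem fr_smul (x w : HH) (a : ℝ) : fr x (a • w) = a • fr x w := by
  unfold fr
  rw [mul_smul_comm]
  funext i
  fin_cases i <;> simp

/-! ### concatenation -/

/-- concatenation of two curves through `x` -/
noncomputable def cat (c1 c2 : ℝ → HH) (x : HH) : ℝ → HH :=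
  fun t => c1 (min (2 * t) 1) * star x * c2 (max (2 * t - 1) 0)

theorem cat_left {c1 c2 : ℝ → HH} {x : HH} (hx : ‖x‖ = 1) (h2 : c2 0 = x) {t : ℝ}
    (ht : t ≤ 1 / 2) : cat c1 c2 x t = c1 (2 * t) := by
  unfold cat
  rw [min_eq_left (by linarith), max_eq_right (by linarith), h2, mul_assoc,
    star_mul_self_unit hx, mul_one]

theorem cat_right {c1 c2 : ℝ → HH} {x : HH} (hx : ‖x‖ = 1) (h1 : c1 1 = x) {t : ℝ}
    (ht : 1 / 2 ≤ t) : cat c1 c2 x t = c2 (2 * t - 1) := by
  unfold cat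
  rw [min_eq_right (by linarith), max_eq_left (by linarith), h1,
    self_mul_star_unit hx, one_mul]

theorem joins_cat {c1 c2 : ℝ → HH} {p x y : HH} (hx : ‖x‖ = 1) (h1 : Joins c1 p x)
    (h2 : Joins c2 x y) : Joins (cat c1 c2 x) p y := by
  obtain ⟨⟨K1, hK1⟩, hn1, ha1, hb1⟩ := h1
  obtain ⟨⟨K2, hK2⟩, hn2, ha2, hb2⟩ := h2
  refine ⟨⟨2 * K1 + 2 * K2, ?_⟩, ?_, ?_, ?_⟩
  · apply LipschitzWith.of_dist_le_mul
    intro t s
    rw [dist_eq_norm, dist_eq_norm]
    have e : cat c1 c2 x t - cat c1 c2 x s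
        = (c1 (min (2 * t) 1) - c1 (min (2 * s) 1)) * star x * c2 (max (2 * t - 1) 0)
          + c1 (min (2 * s) 1) * star x * (c2 (max (2 * t - 1) 0) - c2 (max (2 * s - 1) 0)) := by
      unfold cat
      noncomm_ring
    have h3 : ‖c1 (min (2 * t) 1) - c1 (min (2 * s) 1)‖ ≤ K1 * (2 * |t - s|) := by
      have h4 := hK1.dist_le_mul (min (2 * t) 1) (min (2 * s) 1)
      rw [dist_eq_norm, dist_eq_norm, Real.norm_eq_abs] at h4
      refine h4.trans (mul_le_mul_of_nonneg_left ?_ K1.2)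
      refine (abs_min_sub_min_le_max _ _ _ _).trans ?_
      rw [sub_self, abs_zero, max_eq_left (abs_nonneg _), ← mul_sub, abs_mul, abs_two]
    have h5 : ‖c2 (max (2 * t - 1) 0) - c2 (max (2 * s - 1) 0)‖ ≤ K2 * (2 * |t - s|) := by
      have h4 := hK2.dist_le_mul (max (2 * t - 1) 0) (max (2 * s - 1) 0)
      rw [dist_eq_norm, dist_eq_norm, Real.norm_eq_abs] at h4
      refine h4.trans (mul_le_mul_of_nonneg_left ?_ K2.2)
      refine (abs_max_sub_max_le_max _ _ _ _).trans ?_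
      rw [sub_self, abs_zero, max_eq_left (abs_nonneg _)]
      have : 2 * t - 1 - (2 * s - 1) = 2 * (t - s) := by ring
      rw [this, abs_mul, abs_two]
    rw [e]
    refine (norm_add_le _ _).trans ?_
    rw [norm_mul, norm_mul, norm_mul, norm_mul, norm_star, hx, hn1, hn2]
    simp only [mul_one, one_mul, Real.norm_eq_abs]
    push_cast
    linarith
  · intro t
    unfold cat
    rw [norm_mul, norm_mul, norm_star, hx, hn1, hn2]
    norm_num
  · rw [cat_left hx ha2 (by norm_num)]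
    simpa using ha1
  · rw [cat_right hx hb1 (by norm_num)]
    have : (2 * 1 - 1 : ℝ) = 1 := by norm_num
    rw [this]
    exact hb2

theorem glen_cat {g : MF} (hg : IsMetric g) {c1 c2 : ℝ → HH} {p x y : HH} (hx : ‖x‖ = 1)
    (h1 : Joins c1 p x) (h2 : Joins c2 x y) :
    glen g (cat c1 c2 x) = glen g c1 + glen g c2 := by
  obtain ⟨⟨K, hK⟩, hn, -, -⟩ := joins_cat hx h1 h2
  unfold glen
  rw [← intervalIntegral.integral_add_adjacent_intervals
    (speed_integrable hg hK hn 0 (1 / 2)) (speed_integrable hg hK hn (1 / 2) 1)]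
  congr 1
  · have h3 : Set.EqOn (speed g (cat c1 c2 x)) (fun t => 2 * speed g c1 (2 * t))
        (Set.uIoo 0 (1 / 2)) := by
      intro t ht
      rw [Set.uIoo_of_le (by norm_num)] at ht
      have h4 : cat c1 c2 x =ᶠ[nhds t] fun s => c1 (2 * s) := by
        filter_upwards [Iio_mem_nhds ht.2] with s hs
        exact cat_left hx h2.2.2.1 (le_of_lt hs)
      simp only []
      unfold speed
      rw [h4.deriv_eq, h4.self_of_nhds, deriv_comp_mul_left, fr_smul, ip_smul,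
        Real.sqrt_mul (sq_nonneg _), Real.sqrt_sq (by norm_num : (0:ℝ) ≤ 2)]
    rw [intervalIntegral.integral_congr_uIoo h3, intervalIntegral.integral_const_mul,
      intervalIntegral.integral_comp_mul_left (fun s => speed g c1 s) (by norm_num : (2:ℝ) ≠ 0)]
    simp
  · have h3 : Set.EqOn (speed g (cat c1 c2 x)) (fun t => 2 * speed g c2 (2 * t - 1))
        (Set.uIoo (1 / 2) 1) := by
      intro t ht
      rw [Set.uIoo_of_le (by norm_num)] at ht
      have h4 : cat c1 c2 x =ᶠ[nhds t] fun s => c2 (2 * s - 1) := by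
        filter_upwards [Ioi_mem_nhds ht.1] with s hs
        exact cat_right hx h1.2.2.2 (le_of_lt hs)
      have h5 : deriv (fun s => c2 (2 * s - 1)) t = (2 : ℝ) • deriv c2 (2 * t - 1) := by
        rw [deriv_comp_mul_left 2 (fun s => c2 (s - 1)) t, deriv_comp_sub_const]
      simp only []
      unfold speed
      rw [h4.deriv_eq, h4.self_of_nhds, h5, fr_smul, ip_smul,
        Real.sqrt_mul (sq_nonneg _), Real.sqrt_sq (by norm_num : (0:ℝ) ≤ 2)]
    rw [intervalIntegral.integral_congr_uIoo h3, intervalIntegral.integral_const_mul,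
      intervalIntegral.integral_comp_mul_sub (fun s => speed g c2 s) (by norm_num : (2:ℝ) ≠ 0)]
    norm_num
    ring

/-! ### the distance -/

theorem exists_ee' {x y : HH} (hx : ‖x‖ = 1) (hy : ‖y‖ = 1) : ∃ n : Fin 3 → ℝ,
    ∑ i, n i ^ 2 = 1 ∧ y = x * ee n (Real.arccos (star x * y).re) := by
  have h1 : ‖star x * y‖ = 1 := by rw [norm_mul, norm_star, hx, hy, one_mul]
  obtain ⟨n, hn, h⟩ := exists_ee (star x * y) h1
  refine ⟨n, hn, ?_⟩
  rw [← h, ← mul_assoc, self_mul_star_unit hx, one_mul]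

theorem gdist_bdd (g : MF) (x y : HH) : BddBelow {r | ∃ c, Joins c x y ∧ r = glen g c} := by
  refine ⟨0, ?_⟩
  rintro r ⟨c, -, rfl⟩
  exact glen_nonneg g c

theorem gdist_nonneg (g : MF) (x y : HH) : 0 ≤ gdist g x y := by
  apply Real.sInf_nonneg
  rintro r ⟨c, -, rfl⟩
  exact glen_nonneg g c

theorem glen_arc_le {g : MF} (hg : IsMetric g) {x : HH} (hx : ‖x‖ = 1) {n : Fin 3 → ℝ}
    (hn : ∑ i, n i ^ 2 = 1) (θ M : ℝ)
    (hM : ∀ r, 0 ≤ r → r ≤ 1 → Real.sqrt (ip g (x * ee n (r * θ)) n n) ≤ M) :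
    glen g (arc x n θ) ≤ |θ| * M := by
  obtain ⟨⟨K, hK⟩, hn1, -, -⟩ := joins_arc hx hn θ
  unfold glen
  have h1 : ∫ t in (0:ℝ)..1, speed g (arc x n θ) t ≤ ∫ t in (0:ℝ)..1, |θ| * M := by
    apply intervalIntegral.integral_mono_on zero_le_one (speed_integrable hg hK hn1 0 1)
      intervalIntegrable_const
    intro t ht
    rw [speed_arc g hx hn]
    exact mul_le_mul_of_nonneg_left (hM t ht.1 ht.2) (abs_nonneg _)
  simpa using h1

theorem tri {g : MF} (hg : IsMetric g) {p x : HH} (hp : ‖p‖ = 1) (hx : ‖x‖ = 1) {n : Fin 3 → ℝ}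
    (hn : ∑ i, n i ^ 2 = 1) (θ M : ℝ)
    (hM : ∀ r, 0 ≤ r → r ≤ 1 → Real.sqrt (ip g (x * ee n (r * θ)) n n) ≤ M) :
    gdist g p (x * ee n θ) ≤ gdist g p x + |θ| * M := by
  have h1 := glen_arc_le hg hx hn θ M hM
  have hJ := joins_arc hx hn θ
  have h2 : gdist g p (x * ee n θ) - |θ| * M ≤ gdist g p x := by
    unfold gdist
    apply le_csInf
    · obtain ⟨m, hm, h⟩ := exists_ee' hp hx
      refine ⟨_, arc p m (Real.arccos (star p * x).re), ?_, rfl⟩
      have := joins_arc hp hm (Real.arccos (star p * x).re)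
      rw [← h] at this
      exact this
    · rintro r ⟨c, hc, rfl⟩
      have h3 : sInf {r | ∃ c, Joins c p (x * ee n θ) ∧ r = glen g c}
          ≤ glen g (cat c (arc x n θ) x) :=
        csInf_le (gdist_bdd g _ _) ⟨_, joins_cat hx hc hJ, rfl⟩
      rw [glen_cat hg hx hc hJ] at h3
      linarith
  linarith

theorem tri2 {g : MF} (hg : IsMetric g) {p x : HH} (hp : ‖p‖ = 1) (hx : ‖x‖ = 1) {n : Fin 3 → ℝ}
    (hn : ∑ i, n i ^ 2 = 1) (θ M : ℝ)
    (hM : ∀ r, 0 ≤ r → r ≤ 1 → Real.sqrt (ip g (x * ee n (r * θ)) n n) ≤ M) :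
    |gdist g p (x * ee n θ) - gdist g p x| ≤ |θ| * M := by
  have h1 := tri hg hp hx hn θ M hM
  have hx' : ‖x * ee n θ‖ = 1 := by rw [norm_mul, hx, norm_ee hn, one_mul]
  have h2 := tri hg hp hx' hn (-θ) M (by
    intro r h0 h1
    have e : x * ee n θ * ee n (r * -θ) = x * ee n ((1 - r) * θ) := by
      rw [mul_assoc, ee_add hn]
      congr 2
      ring
    rw [e]
    exact hM (1 - r) (by linarith) (by linarith))
  have e : x * ee n θ * ee n (-θ) = x := by
    rw [mul_assoc, ee_add hn, add_neg_cancel, ee_zero, mul_one]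
  rw [e, abs_neg] at h2
  rw [abs_le]
  constructor <;> linarith

/-! ### uniform comparison of the metric at near points -/

theorem unit_ne_zero {x : HH} (hx : ‖x‖ = 1) : x ≠ 0 := by
  rintro rfl
  simp at hx

theorem ratio {g : MF} (hg : IsMetric g) {δ : ℝ} (hδ : 0 < δ) : ∃ η : ℝ, 0 < η ∧
    ∀ x y : HH, ‖x‖ = 1 → ‖y‖ = 1 → ‖y - x‖ ≤ η → ∀ n : Fin 3 → ℝ, ∑ i, n i ^ 2 = 1 →
      Real.sqrt (ip g y n n) ≤ (1 + δ) * Real.sqrt (ip g x n n) := by
  have hsub : Metric.sphere (0 : HH) 1 ⊆ {0}ᶜ := by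
    intro x hx
    rw [mem_sphere_zero_iff_norm] at hx
    exact unit_ne_zero hx
  have hcont : ∀ i j, ContinuousOn (fun x => g x i j) (Metric.sphere (0 : HH) 1) :=
    fun i j => (hg.sm i j).cd.continuousOn.mono hsub
  -- lower bound
  obtain ⟨m, hm0, hm⟩ : ∃ m : ℝ, 0 < m ∧ ∀ x : HH, ‖x‖ = 1 → ∀ n : Fin 3 → ℝ,
      ∑ i, n i ^ 2 = 1 → m ≤ ip g x n n := by
    set N : Set (Fin 3 → ℝ) := {n | ∑ i, n i ^ 2 = 1} with hN
    have hNc : IsCompact N := by
      apply Metric.isCompact_of_isClosed_isBounded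
      · exact isClosed_eq (by fun_prop) continuous_const
      · rw [Metric.isBounded_iff_subset_closedBall 0]
        refine ⟨1, fun n hn => ?_⟩
        rw [mem_closedBall_zero_iff, pi_norm_le_iff_of_nonneg zero_le_one]
        intro i
        exact abs_le_of_unit hn i
    have hK : IsCompact (Metric.sphere (0 : HH) 1 ×ˢ N) := (isCompact_sphere _ _).prod hNc
    have hne : (Metric.sphere (0 : HH) 1 ×ˢ N).Nonempty := by
      refine ⟨(1, ![1, 0, 0]), ?_, ?_⟩
      · rw [mem_sphere_zero_iff_norm]; exact norm_one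
      · simp [hN, Fin.sum_univ_three]
    have hc : ContinuousOn (fun q : HH × (Fin 3 → ℝ) => ip g q.1 q.2 q.2)
        (Metric.sphere (0 : HH) 1 ×ˢ N) := by
      unfold ip
      refine continuousOn_finsetSum _ fun i _ => continuousOn_finsetSum _ fun j _ => ?_
      refine ContinuousOn.mul (ContinuousOn.mul ?_ ?_) ?_
      · exact (hcont i j).comp continuous_fst.continuousOn (fun q hq => hq.1)
      · exact (by fun_prop : Continuous fun q : HH × (Fin 3 → ℝ) => q.2 i).continuousOn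
      · exact (by fun_prop : Continuous fun q : HH × (Fin 3 → ℝ) => q.2 j).continuousOn
    obtain ⟨q, hq, hmin⟩ := hK.exists_isMinOn hne hc
    refine ⟨ip g q.1 q.2 q.2, ?_, fun x hx n hn => ?_⟩
    · apply ip_pos hg
      intro h0
      have : ∑ i, q.2 i ^ 2 = 1 := hq.2
      rw [h0] at this
      simp at this
    · exact hmin (show (x, n) ∈ _ from ⟨by rw [mem_sphere_zero_iff_norm]; exact hx, hn⟩)
  -- uniform continuity
  have hG : ContinuousOn (fun x => (fun i j => g x i j : Fin 3 → Fin 3 → ℝ))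
      (Metric.sphere (0 : HH) 1) :=
    continuousOn_pi.mpr fun i => continuousOn_pi.mpr fun j => hcont i j
  have hU := (isCompact_sphere (0 : HH) 1).uniformContinuousOn_of_continuous hG
  rw [Metric.uniformContinuousOn_iff_le] at hU
  obtain ⟨η, hη0, hη⟩ := hU (δ * m / 9) (by positivity)
  refine ⟨η, hη0, fun x y hx hy hxy n hn => ?_⟩
  have h1 := hη y (by rw [mem_sphere_zero_iff_norm]; exact hy) x
    (by rw [mem_sphere_zero_iff_norm]; exact hx) (by rw [dist_eq_norm]; exact hxy)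
  have h2 : ∀ i j, |g y i j - g x i j| ≤ δ * m / 9 := by
    intro i j
    have h3 := (dist_pi_le_iff (by positivity)).mp h1 i
    have h4 := (dist_pi_le_iff (by positivity)).mp h3 j
    rwa [Real.dist_eq] at h4
  have h3 : ip g y n n - ip g x n n ≤ δ * m := by
    have e : ip g y n n - ip g x n n
        = ip (fun _ => Matrix.of fun i j => g y i j - g x i j) x n n := by
      unfold ip
      rw [← Finset.sum_sub_distrib]
      refine Finset.sum_congr rfl fun i _ => ?_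
      rw [← Finset.sum_sub_distrib]
      refine Finset.sum_congr rfl fun j _ => ?_
      simp only [Matrix.of_apply]
      ring
    rw [e]
    refine (ip_le (C := δ * m / 9) (K := 1) (by intro i j; exact h2 i j) zero_le_one
      (abs_le_of_unit hn)).trans ?_
    linarith
  have h4 := hm x hx n hn
  have h5 : ip g y n n ≤ (1 + δ) ^ 2 * ip g x n n := by
    have h6 : δ * m ≤ δ * ip g x n n := mul_le_mul_of_nonneg_left h4 hδ.le
    have h7 : 0 ≤ δ * ip g x n n := mul_nonneg hδ.le (ip_nonneg hg x n)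
    have h8 : 0 ≤ δ ^ 2 * ip g x n n := mul_nonneg (sq_nonneg δ) (ip_nonneg hg x n)
    nlinarith
  calc Real.sqrt (ip g y n n) ≤ Real.sqrt ((1 + δ) ^ 2 * ip g x n n) := Real.sqrt_le_sqrt h5
    _ = (1 + δ) * Real.sqrt (ip g x n n) := by
        rw [Real.sqrt_mul (sq_nonneg _), Real.sqrt_sq (by linarith)]

/-! ### modulus of continuity of the distance -/

theorem re_star_mul {x y : HH} (hx : ‖x‖ = 1) (hy : ‖y‖ = 1) :
    (star x * y).re = 1 - ‖y - x‖ ^ 2 / 2 := by
  have h1 := norm_sq_q x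
  have h2 := norm_sq_q y
  have h3 := norm_sq_q (y - x)
  rw [hx] at h1
  rw [hy] at h2
  rw [h3]
  simp
  linarith

/-- the distance from `p`, as a `0`-homogeneous function -/
noncomputable def Dd (g : MF) (p : HH) (y : HH) : ℝ := gdist g p (‖y‖⁻¹ • y)

theorem Dd_unit (g : MF) (p : HH) {x : HH} (hx : ‖x‖ = 1) : Dd g p x = gdist g p x := by
  unfold Dd
  rw [hx, inv_one, one_smul]

theorem Dd_hom (g : MF) (p : HH) {r : ℝ} (hr : 0 < r) (y : HH) : Dd g p (r • y) = Dd g p y := by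
  unfold Dd
  rw [norm_smul, Real.norm_of_nonneg hr.le, smul_smul, mul_inv, mul_comm r⁻¹, mul_assoc,
    inv_mul_cancel₀ hr.ne', mul_one]

theorem norm_normalize {y : HH} (hy : y ≠ 0) : ‖‖y‖⁻¹ • y‖ = 1 := by
  rw [norm_smul, norm_inv, norm_norm, inv_mul_cancel₀ (norm_ne_zero_iff.mpr hy)]

theorem gdist_mod {g : MF} (hg : IsMetric g) {C : ℝ}
    (hC : ∀ x : HH, ‖x‖ = 1 → ∀ i j, |g x i j| ≤ C) {p x y : HH} (hp : ‖p‖ = 1) (hx : ‖x‖ = 1)
    (hy : ‖y‖ = 1) :
    |gdist g p y - gdist g p x| ≤ Real.arccos (1 - ‖y - x‖ ^ 2 / 2) * Real.sqrt (9 * C) := by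
  obtain ⟨n, hn, h⟩ := exists_ee' hx hy
  rw [re_star_mul hx hy] at h
  have h1 := tri2 hg hp hx hn (Real.arccos (1 - ‖y - x‖ ^ 2 / 2)) (Real.sqrt (9 * C)) (by
    intro r _ _
    apply Real.sqrt_le_sqrt
    have := ip_le (hC (x * ee n (r * Real.arccos (1 - ‖y - x‖ ^ 2 / 2)))
      (by rw [norm_mul, hx, norm_ee hn, one_mul])) zero_le_one (abs_le_of_unit hn)
    linarith)
  rw [← h, abs_of_nonneg (Real.arccos_nonneg _)] at h1
  exact h1

theorem gdist_le_pi {g : MF} (hg : IsMetric g) {C : ℝ}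
    (hC : ∀ x : HH, ‖x‖ = 1 → ∀ i j, |g x i j| ≤ C) {p x : HH} (hp : ‖p‖ = 1) (hx : ‖x‖ = 1) :
    gdist g p x ≤ Real.pi * Real.sqrt (9 * C) := by
  obtain ⟨n, hn, h⟩ := exists_ee' hp hx
  set θ := Real.arccos (star p * x).re with hθ
  have h1 := glen_arc_le hg hp hn θ (Real.sqrt (9 * C)) (by
    intro r _ _
    apply Real.sqrt_le_sqrt
    have := ip_le (hC (p * ee n (r * θ))
      (by rw [norm_mul, hp, norm_ee hn, one_mul])) zero_le_one (abs_le_of_unit hn)
    linarith)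
  have hJ := joins_arc hp hn θ
  rw [← h] at hJ
  have h2 : gdist g p x ≤ glen g (arc p n θ) := csInf_le (gdist_bdd g _ _) ⟨_, hJ, rfl⟩
  have h3 : |θ| ≤ Real.pi := by
    rw [abs_of_nonneg (Real.arccos_nonneg _)]
    exact Real.arccos_le_pi _
  exact h2.trans (h1.trans (mul_le_mul_of_nonneg_right h3 (Real.sqrt_nonneg _)))

theorem mod_tendsto (M : ℝ) : Filter.Tendsto (fun s : ℝ => Real.arccos (1 - s ^ 2 / 2) * M)
    (nhds 0) (nhds 0) := by
  have h : Continuous (fun s : ℝ => Real.arccos (1 - s ^ 2 / 2) * M) :=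
    (Real.continuous_arccos.comp (by fun_prop)).mul continuous_const
  have h1 := h.tendsto 0
  simpa using h1

theorem continuousOn_Dd {g : MF} (hg : IsMetric g) {p : HH} (hp : ‖p‖ = 1) :
    ContinuousOn (Dd g p) {0}ᶜ := by
  obtain ⟨C, hC0, hC⟩ := entries_bdd hg
  intro y hy
  have hy0 : y ≠ 0 := hy
  apply ContinuousAt.continuousWithinAt
  have h1 : Filter.Tendsto (fun z : HH => ‖‖z‖⁻¹ • z - ‖y‖⁻¹ • y‖) (nhds y) (nhds 0) := by
    have h2 : ContinuousAt (fun z : HH => ‖‖z‖⁻¹ • z - ‖y‖⁻¹ • y‖) y := by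
      have h3 : ContinuousAt (fun z : HH => ‖z‖⁻¹) y :=
        continuous_norm.continuousAt.inv₀ (norm_ne_zero_iff.mpr hy0)
      exact ((h3.smul continuousAt_id).sub continuousAt_const).norm
    have h4 := h2.tendsto
    simpa using h4
  have h2 := (mod_tendsto (Real.sqrt (9 * C))).comp h1
  rw [ContinuousAt, tendsto_iff_norm_sub_tendsto_zero]
  refine squeeze_zero_norm' ?_ h2
  filter_upwards [isOpen_compl_singleton.mem_nhds hy] with z hz
  have hz0 : z ≠ 0 := hz
  rw [norm_norm]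
  exact gdist_mod hg hC hp (norm_normalize hy0) (norm_normalize hz0)

theorem measurable_Dd {g : MF} (hg : IsMetric g) {p : HH} (hp : ‖p‖ = 1) : Measurable (Dd g p) :=
  measurable_of_continuousOn_compl_singleton 0 (continuousOn_Dd hg hp)

theorem Dd_bdd {g : MF} (hg : IsMetric g) {p : HH} (hp : ‖p‖ = 1) : ∃ K : ℝ, 0 < K ∧
    ∀ y, |Dd g p y| ≤ K := by
  obtain ⟨C, hC0, hC⟩ := entries_bdd hg
  refine ⟨Real.pi * Real.sqrt (9 * C) + |Dd g p 0| + 1, ?_, fun y => ?_⟩
  · have := Real.pi_pos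
    positivity
  · by_cases hy : y = 0
    · rw [hy]
      have := Real.pi_pos
      have h2 : 0 ≤ Real.pi * Real.sqrt (9 * C) := by positivity
      linarith
    · have h1 : Dd g p y ≤ Real.pi * Real.sqrt (9 * C) := gdist_le_pi hg hC hp (norm_normalize hy)
      have h2 : 0 ≤ Dd g p y := gdist_nonneg g _ _
      rw [abs_of_nonneg h2]
      have := abs_nonneg (Dd g p 0)
      linarith

/-! ### mollification -/

open MeasureTheory

/-- radial bump -/
noncomputable def bump (r : ℝ) (h : HH) : ℝ := Real.smoothTransition (1 - ‖h‖ ^ 2 / r ^ 2)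

theorem bump_contDiff (r : ℝ) : ContDiff ℝ ((⊤ : ℕ∞) : WithTop ℕ∞) (bump r) := by
  unfold bump
  exact Real.smoothTransition.contDiff.comp
    (contDiff_const.sub ((contDiff_norm_sq ℝ).div_const _))

theorem bump_nonneg (r : ℝ) (h : HH) : 0 ≤ bump r h := Real.smoothTransition.nonneg _

theorem bump_zero {r : ℝ} (hr : 0 < r) {h : HH} (hh : r ≤ ‖h‖) : bump r h = 0 := by
  unfold bump
  apply Real.smoothTransition.zero_of_nonpos
  have h1 : r ^ 2 ≤ ‖h‖ ^ 2 := by gcongr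
  have h2 : 1 ≤ ‖h‖ ^ 2 / r ^ 2 := by
    rw [le_div_iff₀ (by positivity)]
    linarith
  linarith

theorem bump_supp {r : ℝ} (hr : 0 < r) : HasCompactSupport (bump r) := by
  apply HasCompactSupport.intro (isCompact_closedBall (0 : HH) r)
  intro h hh
  apply bump_zero hr
  rw [mem_closedBall_zero_iff, not_le] at hh
  exact hh.le

theorem bump_integrable {r : ℝ} (hr : 0 < r) : Integrable (bump r) :=
  (bump_contDiff r).continuous.integrable_of_hasCompactSupport (bump_supp hr)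

theorem bump_integral_pos {r : ℝ} (hr : 0 < r) : 0 < ∫ h, bump r h := by
  apply (bump_contDiff r).continuous.integral_pos_of_hasCompactSupport_nonneg_nonzero
    (bump_supp hr) (bump_nonneg r) (x := 0)
  unfold bump
  simp [Real.smoothTransition.one]

/-- weighted average -/
noncomputable def av (r : ℝ) (A : HH → ℝ) : ℝ := (∫ h, bump r h)⁻¹ * ∫ h, bump r h * A h

theorem av_integrable {r : ℝ} (hr : 0 < r) {A : HH → ℝ} (hA : Measurable A) {K : ℝ}
    (hK : ∀ h, |A h| ≤ K) : Integrable (fun h => bump r h * A h) :=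
  (bump_integrable hr).mul_bdd hA.aestronglyMeasurable (Filter.Eventually.of_forall hK)

theorem av_sub_le {r : ℝ} (hr : 0 < r) {A B : HH → ℝ} (hA : Measurable A) (hB : Measurable B)
    {K : ℝ} (hAK : ∀ h, |A h| ≤ K) (hBK : ∀ h, |B h| ≤ K) {L : ℝ} 
    (hL : ∀ h, ‖h‖ < r → |A h - B h| ≤ L) : |av r A - av r B| ≤ L := by
  have hI := bump_integral_pos hr
  unfold av
  rw [← mul_sub, ← integral_sub (av_integrable hr hA hAK) (av_integrable hr hB hBK), abs_mul,
    abs_of_pos (inv_pos.mpr hI)]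
  have h1 : |∫ h, (bump r h * A h - bump r h * B h)| ≤ ∫ h, bump r h * L := by
    rw [← Real.norm_eq_abs]
    apply norm_integral_le_of_norm_le ((bump_integrable hr).mul_const L)
    refine Filter.Eventually.of_forall fun h => ?_
    rw [← mul_sub, norm_mul, Real.norm_of_nonneg (bump_nonneg r h)]
    by_cases hh : ‖h‖ < r
    · exact mul_le_mul_of_nonneg_left (hL h hh) (bump_nonneg r h)
    · rw [bump_zero hr (not_lt.mp hh), zero_mul, zero_mul]
  rw [integral_mul_const] at h1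
  calc (∫ h, bump r h)⁻¹ * |∫ h, (bump r h * A h - bump r h * B h)|
      ≤ (∫ h, bump r h)⁻¹ * ((∫ h, bump r h) * L) :=
        mul_le_mul_of_nonneg_left h1 (inv_nonneg.mpr hI.le)
    _ = L := by field_simp

theorem av_const {r : ℝ} (hr : 0 < r) (b : ℝ) : av r (fun _ => b) = b := by
  have hI := bump_integral_pos hr
  unfold av
  rw [integral_mul_const]
  field_simp

/-- right multiplication by a unit quaternion -/
noncomputable def rmul (u : HH) (hu : ‖u‖ = 1) : HH ≃ₗᵢ[ℝ] HH where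
  toFun x := x * u
  invFun x := x * star u
  map_add' x y := add_mul x y u
  map_smul' r x := smul_mul_assoc r x u
  left_inv x := by
    change x * u * star u = x
    rw [mul_assoc, self_mul_star_unit hu, mul_one]
  right_inv x := by
    change x * star u * u = x
    rw [mul_assoc, star_mul_self_unit hu, mul_one]
  norm_map' x := by
    change ‖x * u‖ = ‖x‖
    rw [norm_mul, hu, mul_one]

theorem integral_rmul {u : HH} (hu : ‖u‖ = 1) (f : HH → ℝ) : ∫ h, f (h * u) = ∫ h, f h := by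
  have h1 := (rmul u hu).measurePreserving
  have h2 := h1.integral_comp (rmul u hu).toHomeomorph.measurableEmbedding f
  exact h2

/-- convolution with the bump -/
noncomputable def Fc (g : MF) (p : HH) (r : ℝ) (x : HH) : ℝ :=
  (∫ h, bump r h)⁻¹ * ∫ t, bump r t * Dd g p (x - t)

theorem Fc_contDiff {g : MF} (hg : IsMetric g) {p : HH} (hp : ‖p‖ = 1) {r : ℝ} (hr : 0 < r) :
    ContDiff ℝ ((⊤ : ℕ∞) : WithTop ℕ∞) (Fc g p r) := by
  obtain ⟨K, hK0, hK⟩ := Dd_bdd hg hp
  have hl : LocallyIntegrable (Dd g p) := by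
    have h1 : MemLp (Dd g p) ⊤ (volume : Measure HH) :=
      memLp_top_of_bound (measurable_Dd hg hp).aestronglyMeasurable K
        (Filter.Eventually.of_forall hK)
    exact h1.locallyIntegrable le_top
  have h2 := (bump_supp hr).contDiff_convolution_left (𝕜 := ℝ) (n := (⊤ : ℕ∞))
    (ContinuousLinearMap.lsmul ℝ ℝ) (bump_contDiff r) hl
  have h3 : Fc g p r = fun x => (∫ h, bump r h)⁻¹ *
      MeasureTheory.convolution (bump r) (Dd g p) (ContinuousLinearMap.lsmul ℝ ℝ) volume x := by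
    funext x
    rw [MeasureTheory.convolution_lsmul]
    rfl
  rw [h3]
  exact contDiff_const.mul h2

theorem Fc_unit (g : MF) (p : HH) (r : ℝ) {u : HH} (hu : ‖u‖ = 1) :
    Fc g p r u = av r (fun h => Dd g p ((1 - h) * u)) := by
  unfold Fc av
  congr 1
  rw [← integral_rmul hu (fun t => bump r t * Dd g p (u - t))]
  congr 1
  funext h
  have h1 : bump r (h * u) = bump r h := by
    unfold bump
    rw [norm_mul, hu, mul_one]
  simp only []
  rw [h1, sub_mul, one_mul]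

/-- the smoothed distance, `0`-homogeneous -/
noncomputable def f1 (g : MF) (p : HH) (r : ℝ) (x : HH) : ℝ := Fc g p r (‖x‖⁻¹ • x)

theorem f1_sm {g : MF} (hg : IsMetric g) {p : HH} (hp : ‖p‖ = 1) {r : ℝ} (hr : 0 < r) :
    Sm (f1 g p r) := by
  refine ⟨?_, fun s x hs => ?_⟩
  · unfold f1
    refine (Fc_contDiff hg hp hr).comp_contDiffOn ?_
    have h1 : ContDiffOn ℝ ((⊤ : ℕ∞) : WithTop ℕ∞) (fun x : HH => ‖x‖) {0}ᶜ :=
      contDiffOn_id.norm ℝ (fun x hx => hx)
    exact (h1.inv (fun x hx => norm_ne_zero_iff.mpr hx)).smul contDiffOn_id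
  · unfold f1
    congr 1
    rw [norm_smul, Real.norm_of_nonneg hs.le, smul_smul, mul_inv, mul_comm s⁻¹, mul_assoc,
      inv_mul_cancel₀ hs.ne', mul_one]

theorem f1_unit (g : MF) (p : HH) (r : ℝ) {u : HH} (hu : ‖u‖ = 1) :
    f1 g p r u = av r (fun h => Dd g p ((1 - h) * u)) := by
  unfold f1
  rw [hu, inv_one, one_smul, Fc_unit g p r hu]

/-- normalised perturbation of a unit quaternion -/
theorem pert {h x : HH} (hx : ‖x‖ = 1) (hh : ‖h‖ < 1) : (1 - h) * x ≠ 0 ∧
    ‖‖(1 - h) * x‖⁻¹ • ((1 - h) * x) - x‖ ≤ 2 * ‖h‖ := by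
  have h0 : 0 < ‖1 - h‖ := by
    have h1 := norm_sub_norm_le (1 : HH) h
    rw [norm_one] at h1
    linarith
  have hn : ‖(1 - h) * x‖ = ‖1 - h‖ := by rw [norm_mul, hx, mul_one]
  refine ⟨?_, ?_⟩
  · rw [← norm_pos_iff, hn]
    exact h0
  · rw [hn]
    have e : ‖1 - h‖⁻¹ • ((1 - h) * x) - x = (‖1 - h‖⁻¹ • (1 - h) - (1 - h) - h) * x := by
      rw [← smul_mul_assoc]
      noncomm_ring
    rw [e, norm_mul, hx, mul_one]
    refine (norm_sub_le _ _).trans ?_
    have e2 : ‖1 - h‖⁻¹ • (1 - h) - (1 - h) = (‖1 - h‖⁻¹ - 1) • (1 - h) := by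
      rw [sub_smul, one_smul]
    rw [e2, norm_smul]
    have h2 : ‖‖1 - h‖⁻¹ - 1‖ * ‖1 - h‖ = |1 - ‖1 - h‖| := by
      rw [Real.norm_eq_abs, ← abs_of_pos h0, ← abs_mul, abs_of_pos h0, sub_mul,
        inv_mul_cancel₀ h0.ne', one_mul]
    rw [h2]
    have h3 : |1 - ‖1 - h‖| ≤ ‖h‖ := by
      have h4 := abs_norm_sub_norm_le (1 : HH) (1 - h)
      rw [norm_one, sub_sub_cancel] at h4
      exact h4
    linarith

theorem measurable_pull {g : MF} (hg : IsMetric g) {p : HH} (hp : ‖p‖ = 1) (u : HH) :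
    Measurable (fun h : HH => Dd g p ((1 - h) * u)) := by
  have h1 : Measurable (fun h : HH => (1 - h) * u) :=
    ((continuous_const.sub continuous_id).mul continuous_const).measurable
  exact (measurable_Dd hg hp).comp h1

theorem f1_close {g : MF} (hg : IsMetric g) {C : ℝ}
    (hC : ∀ x : HH, ‖x‖ = 1 → ∀ i j, |g x i j| ≤ C) {p : HH} (hp : ‖p‖ = 1) {r : ℝ} (hr : 0 < r)
    (hr1 : r ≤ 1 / 2) {x : HH} (hx : ‖x‖ = 1) :
    |f1 g p r x - gdist g p x| ≤ Real.arccos (1 - (2 * r) ^ 2 / 2) * Real.sqrt (9 * C) := by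
  obtain ⟨K, hK0, hK⟩ := Dd_bdd hg hp
  rw [f1_unit g p r hx, ← av_const hr (gdist g p x)]
  refine av_sub_le hr (measurable_pull hg hp x) measurable_const (K := K) (fun h => hK _)
    (fun h => ?_) (fun h hh => ?_)
  · have := hK x
    rwa [Dd_unit g p hx] at this
  · obtain ⟨h1, h2⟩ := pert hx (by linarith : ‖h‖ < 1)
    have h3 := gdist_mod hg hC hp hx (norm_normalize h1)
    refine h3.trans (mul_le_mul_of_nonneg_right ?_ (Real.sqrt_nonneg _))
    apply Real.arccos_le_arccos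
    have h4 : ‖‖(1 - h) * x‖⁻¹ • ((1 - h) * x) - x‖ ≤ 2 * r := by linarith
    have h5 : ‖‖(1 - h) * x‖⁻¹ • ((1 - h) * x) - x‖ ^ 2 ≤ (2 * r) ^ 2 := by gcongr
    linarith

theorem f1_lip {g : MF} (hg : IsMetric g) {p : HH} (hp : ‖p‖ = 1) {δ η : ℝ}
    (hη : ∀ x y : HH, ‖x‖ = 1 → ‖y‖ = 1 → ‖y - x‖ ≤ η → ∀ n : Fin 3 → ℝ, ∑ i, n i ^ 2 = 1 →
      Real.sqrt (ip g y n n) ≤ (1 + δ) * Real.sqrt (ip g x n n))
    {r : ℝ} (hr : 0 < r) (hr1 : r ≤ 1 / 2) (hr2 : 4 * r ≤ η) {x : HH} (hx : ‖x‖ = 1)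
    {n : Fin 3 → ℝ} (hn : ∑ i, n i ^ 2 = 1) {s : ℝ} (hs : 2 * |s| ≤ η) :
    |f1 g p r (x * ee n s) - f1 g p r x| ≤ |s| * ((1 + δ) * Real.sqrt (ip g x n n)) := by
  obtain ⟨K, hK0, hK⟩ := Dd_bdd hg hp
  have hxs : ‖x * ee n s‖ = 1 := by rw [norm_mul, hx, norm_ee hn, one_mul]
  rw [f1_unit g p r hxs, f1_unit g p r hx]
  refine av_sub_le hr (measurable_pull hg hp _) (measurable_pull hg hp _) (K := K)
    (fun h => hK _) (fun h => hK _) (fun h hh => ?_)
  obtain ⟨h1, h2⟩ := pert hx (by linarith : ‖h‖ < 1)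
  set w := ‖(1 - h) * x‖⁻¹ • ((1 - h) * x) with hw
  have hwn : ‖w‖ = 1 := norm_normalize h1
  have e1 : Dd g p ((1 - h) * x) = gdist g p w := rfl
  have e2 : Dd g p ((1 - h) * (x * ee n s)) = gdist g p (w * ee n s) := by
    unfold Dd
    congr 1
    rw [← mul_assoc, norm_mul ((1 - h) * x), norm_ee hn, mul_one, hw, smul_mul_assoc]
  rw [e1, e2]
  apply tri2 hg hp hwn hn
  intro q hq0 hq1
  apply hη x _ hx (by rw [norm_mul, hwn, norm_ee hn, one_mul]) _ n hn
  have e3 : w * ee n (q * s) - x = w * (ee n (q * s) - 1) + (w - x) := by noncomm_ring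
  rw [e3]
  refine (norm_add_le _ _).trans ?_
  rw [norm_mul, hwn, one_mul]
  have h3 := ee_sub_one hn (q * s)
  have h4 : |q * s| ≤ |s| := by
    rw [abs_mul, abs_of_nonneg hq0]
    exact mul_le_of_le_one_left (abs_nonneg s) hq1
  linarith

theorem f1_deriv {g : MF} (hg : IsMetric g) {p : HH} (hp : ‖p‖ = 1) {r : ℝ} (hr : 0 < r) {x : HH}
    (hx : ‖x‖ = 1) {n : Fin 3 → ℝ} (hn : ∑ i, n i ^ 2 = 1) :
    HasDerivAt (fun s => f1 g p r (x * ee n s)) (∑ i, n i * E i (f1 g p r) x) 0 := by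
  have h1 : DifferentiableAt ℝ (f1 g p r) x :=
    ((f1_sm hg hp hr).cd.contDiffAt (isOpen_compl_singleton.mem_nhds
      (unit_ne_zero hx))).differentiableAt (by simp)
  have h2 : HasDerivAt (fun s => x * ee n s) (x * (ee n 0 * io n)) 0 := (ee_der hn 0).const_mul x
  rw [ee_zero, one_mul] at h2
  have h3 : HasFDerivAt (f1 g p r) (fderiv ℝ (f1 g p r) x) (x * ee n 0) := by
    rw [ee_zero, mul_one]
    exact h1.hasFDerivAt
  have h4 := h3.comp_hasDerivAt (0 : ℝ) h2
  have e : ∑ i, n i * E i (f1 g p r) x = fderiv ℝ (f1 g p r) x (x * io n) := by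
    have e1 : x * io n = ∑ i, n i • (x * qe i) := by
      have e2 : io n = ∑ i, n i • qe i := by
        rw [Fin.sum_univ_three]
        ext <;> simp [io, qe]
      rw [e2, Finset.mul_sum]
      refine Finset.sum_congr rfl fun i _ => ?_
      rw [mul_smul_comm]
    rw [e1, map_sum]
    refine Finset.sum_congr rfl fun i _ => ?_
    rw [map_smul]
    rfl
  rw [e]
  exact h4

theorem f1_dir {g : MF} (hg : IsMetric g) {p : HH} (hp : ‖p‖ = 1) {δ η : ℝ} (hδ : 0 < δ)
    (hη0 : 0 < η)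
    (hη : ∀ x y : HH, ‖x‖ = 1 → ‖y‖ = 1 → ‖y - x‖ ≤ η → ∀ n : Fin 3 → ℝ, ∑ i, n i ^ 2 = 1 →
      Real.sqrt (ip g y n n) ≤ (1 + δ) * Real.sqrt (ip g x n n))
    {r : ℝ} (hr : 0 < r) (hr1 : r ≤ 1 / 2) (hr2 : 4 * r ≤ η) {x : HH} (hx : ‖x‖ = 1)
    {n : Fin 3 → ℝ} (hn : ∑ i, n i ^ 2 = 1) :
    |∑ i, n i * E i (f1 g p r) x| ≤ (1 + δ) * Real.sqrt (ip g x n n) := by
  have h1 := (f1_deriv hg hp hr hx hn).le_of_lip'
    (C := (1 + δ) * Real.sqrt (ip g x n n)) (by positivity) (by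
      have h2 : ∀ᶠ s : ℝ in nhds 0, |s| < η / 2 := by
        have := Metric.ball_mem_nhds (0 : ℝ) (half_pos hη0)
        filter_upwards [this] with s hs
        rwa [mem_ball_zero_iff, Real.norm_eq_abs] at hs
      filter_upwards [h2] with s hs
      have h3 := f1_lip hg hp hη hr hr1 hr2 hx hn (s := s) (by linarith)
      rw [ee_zero, mul_one, sub_zero, Real.norm_eq_abs, Real.norm_eq_abs]
      linarith)
  exact h1

/-- scaling -/
theorem f1_dir' {g : MF} (hg : IsMetric g) {p : HH} (hp : ‖p‖ = 1) {δ η : ℝ} (hδ : 0 < δ)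
    (hη0 : 0 < η)
    (hη : ∀ x y : HH, ‖x‖ = 1 → ‖y‖ = 1 → ‖y - x‖ ≤ η → ∀ n : Fin 3 → ℝ, ∑ i, n i ^ 2 = 1 →
      Real.sqrt (ip g y n n) ≤ (1 + δ) * Real.sqrt (ip g x n n))
    {r : ℝ} (hr : 0 < r) (hr1 : r ≤ 1 / 2) (hr2 : 4 * r ≤ η) {x : HH} (hx : ‖x‖ = 1)
    (v : Fin 3 → ℝ) :
    |∑ i, v i * E i (f1 g p r) x| ≤ (1 + δ) * Real.sqrt (ip g x v v) := by
  by_cases hv : ∑ i, v i ^ 2 = 0
  · have h0 : ∀ i, v i = 0 := by
      intro i
      have h1 := (Finset.sum_eq_zero_iff_of_nonneg (fun i _ => sq_nonneg (v i))).mp hv i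
        (Finset.mem_univ i)
      exact pow_eq_zero_iff two_ne_zero |>.mp h1
    have h2 : ∑ i, v i * E i (f1 g p r) x = 0 :=
      Finset.sum_eq_zero fun i _ => by rw [h0 i, zero_mul]
    rw [h2, abs_zero]
    positivity
  · have hv0 : 0 < ∑ i, v i ^ 2 :=
      lt_of_le_of_ne (Finset.sum_nonneg fun i _ => sq_nonneg _) (Ne.symm hv)
    set a := Real.sqrt (∑ i, v i ^ 2) with ha
    have ha0 : 0 < a := Real.sqrt_pos.mpr hv0
    have ha2 : a ^ 2 = ∑ i, v i ^ 2 := Real.sq_sqrt hv0.le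
    set n : Fin 3 → ℝ := a⁻¹ • v with hn'
    have hn : ∑ i, n i ^ 2 = 1 := by
      simp only [hn', Pi.smul_apply, smul_eq_mul, mul_pow]
      rw [← Finset.mul_sum, ← ha2]
      field_simp
    have hvn : v = a • n := by
      rw [hn', smul_smul, mul_inv_cancel₀ ha0.ne', one_smul]
    have h1 := f1_dir hg hp hδ hη0 hη hr hr1 hr2 hx hn
    have h2 : ∑ i, v i * E i (f1 g p r) x = a * ∑ i, n i * E i (f1 g p r) x := by
      rw [Finset.mul_sum]
      refine Finset.sum_congr rfl fun i _ => ?_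
      rw [hvn]
      simp only [Pi.smul_apply, smul_eq_mul]
      ring
    have h3 : Real.sqrt (ip g x v v) = a * Real.sqrt (ip g x n n) := by
      rw [hvn, ip_smul, Real.sqrt_mul (sq_nonneg _), Real.sqrt_sq ha0.le]
    rw [h2, h3, abs_mul, abs_of_pos ha0]
    nlinarith

theorem f1_grad {g : MF} (hg : IsMetric g) {p : HH} (hp : ‖p‖ = 1) {δ η : ℝ} (hδ : 0 < δ)
    (hη0 : 0 < η)
    (hη : ∀ x y : HH, ‖x‖ = 1 → ‖y‖ = 1 → ‖y - x‖ ≤ η → ∀ n : Fin 3 → ℝ, ∑ i, n i ^ 2 = 1 →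
      Real.sqrt (ip g y n n) ≤ (1 + δ) * Real.sqrt (ip g x n n))
    {r : ℝ} (hr : 0 < r) (hr1 : r ≤ 1 / 2) (hr2 : 4 * r ≤ η) {x : HH} (hx : ‖x‖ = 1) :
    ggC g (f1 g p r) (f1 g p r) x ≤ (1 + δ) ^ 2 := by
  set a : Fin 3 → ℝ := fun i => E i (f1 g p r) x with ha
  set v : Fin 3 → ℝ := (g x)⁻¹.mulVec a with hv
  have hdet : IsUnit (g x).det := isUnit_iff_ne_zero.mpr (hg.pos x).det_pos.ne'
  have hgv : (g x).mulVec v = a := by
    rw [hv, Matrix.mulVec_mulVec, Matrix.mul_nonsing_inv _ hdet, Matrix.one_mulVec]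
  have e1 : ggC g (f1 g p r) (f1 g p r) x = ∑ i, v i * E i (f1 g p r) x := by
    unfold ggC
    simp only [hv, Matrix.mulVec, dotProduct, Finset.sum_mul, ha]
    refine Finset.sum_congr rfl fun i _ => Finset.sum_congr rfl fun j _ => ?_
    ring
  have e2 : ip g x v v = ∑ i, v i * E i (f1 g p r) x := by
    have h1 : ip g x v v = ∑ i, v i * (g x).mulVec v i := by
      unfold ip
      simp only [Matrix.mulVec, dotProduct, Finset.mul_sum]
      refine Finset.sum_congr rfl fun i _ => Finset.sum_congr rfl fun j _ => ?_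
      ring
    rw [h1, hgv]
  have h1 := f1_dir' hg hp hδ hη0 hη hr hr1 hr2 hx v
  rw [e2] at h1
  rw [e1]
  set S := ∑ i, v i * E i (f1 g p r) x with hS
  have hS0 : 0 ≤ S := by rw [← e2]; exact ip_nonneg hg x v
  rw [abs_of_nonneg hS0] at h1
  set q := Real.sqrt S with hq
  have hq2 : q ^ 2 = S := Real.sq_sqrt hS0
  have hq0 : 0 ≤ q := Real.sqrt_nonneg _
  rw [← hq2] at h1 ⊢
  by_cases h0 : q = 0
  · rw [h0]
    have : 0 ≤ (1 + δ) ^ 2 := sq_nonneg _
    linarith
  · have hq1 : 0 < q := lt_of_le_of_ne hq0 (Ne.symm h0)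
    have h2 : q ≤ 1 + δ := by
      by_contra hcon
      push Not at hcon
      nlinarith
    gcongr

theorem E_hom0 {f : HH → ℝ} (hf : Hom0 f) (i : Fin 3) : Hom0 (E i f) := by
  intro r x hr
  have h1 : (fun y => f (r • y)) = f := by funext y; exact hf r y hr
  have h2 : fderiv ℝ f x = r • fderiv ℝ f (r • x) := by
    conv_lhs => rw [← h1]
    exact fderiv_comp_smul (𝕜 := ℝ) (f := f) (x := x) r
  unfold E
  rw [h2, smul_mul_assoc, map_smul]
  rfl

theorem ggC_hom {g : MF} (hg : IsMetric g) {f : HH → ℝ} (hf : Hom0 f) : Hom0 (ggC g f f) := by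
  intro r x hr
  have h1 : g (r • x) = g x := by
    ext i j
    exact (hg.sm i j).hom r x hr
  unfold ggC
  rw [h1]
  refine Finset.sum_congr rfl fun i _ => Finset.sum_congr rfl fun j _ => ?_
  rw [E_hom0 hf i r x hr, E_hom0 hf j r x hr]

theorem smo : SmoStmt := by
  intro g p ε hg hp hε
  obtain ⟨C, hC0, hC⟩ := entries_bdd hg
  set P := Real.pi * Real.sqrt (9 * C) with hP
  have hP0 : 0 ≤ P := by have := Real.pi_pos; positivity
  -- choice of δ
  set δ := ε / (2 * (P + ε)) with hδ'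
  have hδ : 0 < δ := by positivity
  obtain ⟨η, hη0, hη⟩ := ratio hg hδ
  -- choice of r
  have hm : ∀ᶠ s : ℝ in nhds 0, Real.arccos (1 - s ^ 2 / 2) * Real.sqrt (9 * C) < ε / 4 :=
    (mod_tendsto (Real.sqrt (9 * C))).eventually (gt_mem_nhds (by positivity))
  rw [Metric.eventually_nhds_iff] at hm
  obtain ⟨s0, hs0, hs⟩ := hm
  set r := min (min (1 / 2) (η / 4)) (s0 / 4) with hr'
  have hr : 0 < r := by
    rw [hr']
    exact lt_min (lt_min (by norm_num) (by positivity)) (by positivity)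
  have hr1 : r ≤ 1 / 2 := (min_le_left _ _).trans (min_le_left _ _)
  have hr2 : 4 * r ≤ η := by
    have : r ≤ η / 4 := (min_le_left _ _).trans (min_le_right _ _)
    linarith
  have hr3 : Real.arccos (1 - (2 * r) ^ 2 / 2) * Real.sqrt (9 * C) < ε / 4 := by
    apply hs
    have : r ≤ s0 / 4 := min_le_right _ _
    rw [Real.dist_eq, sub_zero, abs_of_pos (by linarith)]
    linarith
  have hsm := f1_sm hg hp hr
  refine ⟨fun x => (1 + δ)⁻¹ * f1 g p r x, ⟨contDiffOn_const.mul hsm.cd, fun s x hs => ?_⟩,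
    fun x hx => ?_, fun x hx => ?_⟩
  · simp only [hsm.hom s x hs]
  · have hE : ∀ (i : Fin 3), E i (fun x => (1 + δ)⁻¹ * f1 g p r x) x
        = (1 + δ)⁻¹ * E i (f1 g p r) x := by
      intro i
      have h1 : DifferentiableAt ℝ (f1 g p r) x :=
        (hsm.cd.contDiffAt (isOpen_compl_singleton.mem_nhds hx)).differentiableAt (by simp)
      unfold E
      rw [fderiv_const_mul h1]
      rfl
    have e : ggC g (fun x => (1 + δ)⁻¹ * f1 g p r x) (fun x => (1 + δ)⁻¹ * f1 g p r x) x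
        = ((1 + δ) ^ 2)⁻¹ * ggC g (f1 g p r) (f1 g p r) x := by
      unfold ggC
      rw [Finset.mul_sum]
      refine Finset.sum_congr rfl fun i _ => ?_
      rw [Finset.mul_sum]
      refine Finset.sum_congr rfl fun j _ => ?_
      rw [hE i, hE j]
      field_simp
    rw [e]
    have hu := norm_normalize hx
    have h2 := f1_grad hg hp hδ hη0 hη hr hr1 hr2 hu
    have h3 : ggC g (f1 g p r) (f1 g p r) (‖x‖⁻¹ • x) = ggC g (f1 g p r) (f1 g p r) x :=
      ggC_hom hg hsm.hom _ x (inv_pos.mpr (norm_pos_iff.mpr hx))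
    rw [h3] at h2
    rw [inv_mul_le_iff₀ (by positivity), mul_one]
    exact h2
  · have h1 := f1_close hg hC hp hr hr1 hx
    have h2 : |f1 g p r x| ≤ P + ε := by
      have h3 := gdist_le_pi hg hC hp hx
      have h4 := gdist_nonneg g p x
      have h5 : |f1 g p r x| ≤ |f1 g p r x - gdist g p x| + |gdist g p x| := by
        have := abs_add_le (f1 g p r x - gdist g p x) (gdist g p x)
        rwa [sub_add_cancel] at this
      rw [abs_of_nonneg h4] at h5
      linarith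
    have h3 : |(1 + δ)⁻¹ * f1 g p r x - f1 g p r x| ≤ ε / 2 := by
      have e : (1 + δ)⁻¹ * f1 g p r x - f1 g p r x = -(δ / (1 + δ)) * f1 g p r x := by
        field_simp
        ring
      rw [e, abs_mul, abs_neg, abs_of_pos (by positivity)]
      have h4 : δ / (1 + δ) ≤ δ := div_le_self hδ.le (by linarith)
      calc δ / (1 + δ) * |f1 g p r x| ≤ δ * (P + ε) := by gcongr
        _ = ε / 2 := by rw [hδ']; field_simp
    have h4 : |(1 + δ)⁻¹ * f1 g p r x - gdist g p x|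
        ≤ |(1 + δ)⁻¹ * f1 g p r x - f1 g p r x| + |f1 g p r x - gdist g p x| := abs_sub_le _ _ _
    simp only []
    linarith

end Pool.Agent.Helper60.RF
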