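import Pool.Agent.Helper64.RF.GoalsF

open Quaternion Pool.Agent.Helper64.RF Filter Topology

open scoped RealInnerProductSpace

namespace Pool.Agent.Helper60.RF

theorem star_aux {κ : ℝ} (hκ0 : 0 < κ) (hκ1 : κ ≤ 1) {y0 : ℍ[ℝ]} (hy0 : ‖y0‖ = 1) :
    StarConvex ℝ (-y0) {y : ℍ[ℝ] | ⟪y, y0⟫ < κ * ‖y‖} := by
  intro y hy a b ha hb hab
  have hy' : ⟪y, y0⟫ < κ * ‖y‖ := hy
  change ⟪a • (-y0) + b • y, y0⟫ < κ * ‖a • (-y0) + b • y‖
  have h1 : ⟪a • (-y0) + b • y, y0⟫ = -a + b * ⟪y, y0⟫ := by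
    rw [inner_add_left, real_inner_smul_left, real_inner_smul_left, inner_neg_left,
      real_inner_self_eq_norm_sq, hy0]
    ring
  have h2 : b * ‖y‖ - a ≤ ‖a • (-y0) + b • y‖ := by
    have h3 : ‖b • y‖ ≤ ‖a • (-y0) + b • y‖ + ‖a • (-y0)‖ := by
      have h4 : b • y = (a • (-y0) + b • y) - a • (-y0) := by abel
      calc ‖b • y‖ = ‖(a • (-y0) + b • y) - a • (-y0)‖ := by rw [← h4]
        _ ≤ _ := norm_sub_le _ _
    rw [norm_smul, norm_smul, norm_neg, hy0, Real.norm_of_nonneg ha, Real.norm_of_nonneg hb] at h3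
    linarith
  rw [h1]
  rcases hb.eq_or_lt with hb0 | hb0
  · have ha1 : a = 1 := by linarith
    have h5 : ‖a • (-y0) + b • y‖ = 1 := by
      rw [← hb0, ha1, one_smul, zero_smul, add_zero, norm_neg, hy0]
    rw [h5, ← hb0, ha1]
    linarith
  · have h6 : b * ⟪y, y0⟫ < b * (κ * ‖y‖) := mul_lt_mul_of_pos_left hy' hb0
    have h7 : κ * (b * ‖y‖ - a) ≤ κ * ‖a • (-y0) + b • y‖ := mul_le_mul_of_nonneg_left h2 hκ0.le
    have h8 : κ * a ≤ a := by nlinarith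
    nlinarith

theorem mem_iff {δ : ℝ} (hδ : 0 < δ) {y0 y : ℍ[ℝ]} (hy0 : ‖y0‖ = 1) (hy : y ≠ 0) :
    δ < ‖‖y‖⁻¹ • y - y0‖ ↔ ⟪y, y0⟫ < (1 - δ ^ 2 / 2) * ‖y‖ := by
  have hn : 0 < ‖y‖ := norm_pos_iff.mpr hy
  have h1 : ‖‖y‖⁻¹ • y - y0‖ ^ 2 = 2 - 2 * (‖y‖⁻¹ * ⟪y, y0⟫) := by
    rw [norm_sub_sq_real, real_inner_smul_left, hy0, norm_smul, norm_inv, norm_norm,
      inv_mul_cancel₀ hn.ne']
    ring
  have h2 : δ < ‖‖y‖⁻¹ • y - y0‖ ↔ δ ^ 2 < ‖‖y‖⁻¹ • y - y0‖ ^ 2 := by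
    rw [sq_lt_sq₀ hδ.le (norm_nonneg _)]
  rw [h2, h1]
  have h3 : ⟪y, y0⟫ < (1 - δ ^ 2 / 2) * ‖y‖ ↔ ‖y‖⁻¹ * ⟪y, y0⟫ < 1 - δ ^ 2 / 2 := by
    rw [inv_mul_lt_iff₀ hn, mul_comm ‖y‖]
  rw [h3]
  constructor <;> intro h <;> linarith

theorem top : TOP := by
  intro F R δ y0 hR hδ hδ1 hy0 hhom hnorm hcont hopen hbd hne
  set C : Set ℍ[ℝ] := {y : ℍ[ℝ] | ⟪y, y0⟫ < (1 - δ ^ 2 / 2) * ‖y‖} with hC
  have hκ0 : 0 < 1 - δ ^ 2 / 2 := by nlinarith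
  have hκ1 : 1 - δ ^ 2 / 2 ≤ 1 := by nlinarith [sq_nonneg δ]
  have hC0 : ∀ y ∈ C, y ≠ 0 := by
    intro y hy h0
    have hy' : ⟪y, y0⟫ < (1 - δ ^ 2 / 2) * ‖y‖ := hy
    rw [h0] at hy'
    simp at hy'
  have hCne : -y0 ∈ C := by
    change ⟪-y0, y0⟫ < (1 - δ ^ 2 / 2) * ‖-y0‖
    rw [inner_neg_left, real_inner_self_eq_norm_sq, norm_neg, hy0]
    nlinarith
  have hCpre : IsPreconnected C :=
    ((star_aux hκ0 hκ1 hy0).isPathConnected hCne).isConnected.isPreconnected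
  set A : Set ℍ[ℝ] := F '' (KR R) with hA
  have hFy : ∀ x ∈ KR R, F x ∈ C → (1 - R ^ 2) * ‖x‖ < (1 + R ^ 2) * x.re := by
    intro x hx hxC
    rcases lt_or_eq_of_le hx.2 with h | h
    · exact h
    · exfalso
      have hn : 0 < ‖x‖ := norm_pos_iff.mpr hx.1
      have hx1 : ‖x‖⁻¹ • x ∈ KR R := by
        refine ⟨smul_ne_zero (inv_pos.mpr hn).ne' hx.1, ?_⟩
        rw [norm_smul, norm_inv, norm_norm, inv_mul_cancel₀ hn.ne', Quaternion.re_smul, smul_eq_mul]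
        have := hx.2
        calc (1 - R ^ 2) * 1 = ‖x‖⁻¹ * ((1 - R ^ 2) * ‖x‖) := by field_simp
          _ ≤ ‖x‖⁻¹ * ((1 + R ^ 2) * x.re) := mul_le_mul_of_nonneg_left this (inv_pos.mpr hn).le
          _ = _ := by ring
      have hn1 : ‖‖x‖⁻¹ • x‖ = 1 := by
        rw [norm_smul, norm_inv, norm_norm, inv_mul_cancel₀ hn.ne']
      have he1 : (1 - R ^ 2) * ‖‖x‖⁻¹ • x‖ = (1 + R ^ 2) * (‖x‖⁻¹ • x).re := by
        rw [hn1, Quaternion.re_smul, smul_eq_mul]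
        calc (1 - R ^ 2) * 1 = ‖x‖⁻¹ * ((1 - R ^ 2) * ‖x‖) := by field_simp
          _ = ‖x‖⁻¹ * ((1 + R ^ 2) * x.re) := by rw [h]
          _ = _ := by ring
      have h3 := hbd _ hx1 hn1 he1
      rw [hhom x hx _ (inv_pos.mpr hn), ← hnorm x hx] at h3
      have h4 := (mem_iff hδ hy0 (hC0 _ hxC)).mpr hxC
      linarith
  have hAopen : ∀ y ∈ C, y ∈ A → A ∈ 𝓝 y := by
    rintro y hyC ⟨x, hx, rfl⟩
    have hlt := hFy x hx hyC
    have hKR : KR R ∈ 𝓝 x := by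
      have h1 : {z : ℍ[ℝ] | z ≠ 0} ∈ 𝓝 x := isOpen_ne.mem_nhds hx.1
      have h2 : {z : ℍ[ℝ] | (1 - R ^ 2) * ‖z‖ < (1 + R ^ 2) * z.re} ∈ 𝓝 x := by
        have ho : IsOpen {z : ℍ[ℝ] | (1 - R ^ 2) * ‖z‖ < (1 + R ^ 2) * z.re} :=
          isOpen_lt (continuous_const.mul continuous_norm)
            (continuous_const.mul Quaternion.continuous_re)
        exact ho.mem_nhds hlt
      filter_upwards [h1, h2] with z hz1 hz2
      exact ⟨hz1, le_of_lt hz2⟩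
    exact hopen x hx hlt (image_mem_map hKR)
  have hAclosed : ∀ y ∈ C, y ∈ closure A → y ∈ A := by
    intro y hyC hy
    obtain ⟨z, hz, hzlim⟩ := mem_closure_iff_seq_limit.mp hy
    choose x hx hxz using hz
    have hnx : Tendsto (fun n => ‖x n‖) atTop (𝓝 ‖y‖) := by
      have : (fun n => ‖x n‖) = fun n => ‖z n‖ := by
        funext n
        rw [← hxz n, hnorm _ (hx n)]
      rw [this]
      exact hzlim.norm
    obtain ⟨M, hM⟩ := hnx.bddAbove_range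
    have hxM : ∀ n, x n ∈ Metric.closedBall (0 : ℍ[ℝ]) M := by
      intro n
      rw [mem_closedBall_zero_iff]
      exact hM ⟨n, rfl⟩
    obtain ⟨x0, -, φ, hφ, hx0⟩ := (isCompact_closedBall (0 : ℍ[ℝ]) M).tendsto_subseq hxM
    have hn0 : ‖x0‖ = ‖y‖ := tendsto_nhds_unique hx0.norm (hnx.comp hφ.tendsto_atTop)
    have hx0ne : x0 ≠ 0 := by
      rw [← norm_ne_zero_iff, hn0, norm_ne_zero_iff]
      exact hC0 y hyC
    have hx0K : x0 ∈ KR R := by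
      refine ⟨hx0ne, ?_⟩
      have h1 : Tendsto (fun n => (1 - R ^ 2) * ‖(x ∘ φ) n‖) atTop (𝓝 ((1 - R ^ 2) * ‖x0‖)) :=
        hx0.norm.const_mul _
      have h2 : Tendsto (fun n => (1 + R ^ 2) * ((x ∘ φ) n).re) atTop (𝓝 ((1 + R ^ 2) * x0.re)) :=
        ((Quaternion.continuous_re.tendsto x0).comp hx0).const_mul _
      exact le_of_tendsto_of_tendsto' h1 h2 (fun n => (hx (φ n)).2)
    refine ⟨x0, hx0K, ?_⟩
    have h3 : Tendsto (x ∘ φ) atTop (𝓝[KR R] x0) :=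
      tendsto_nhdsWithin_iff.mpr ⟨hx0, Eventually.of_forall (fun n => hx (φ n))⟩
    have h4 : Tendsto (F ∘ (x ∘ φ)) atTop (𝓝 (F x0)) := (hcont x0 hx0K).tendsto.comp h3
    have h5 : F ∘ (x ∘ φ) = z ∘ φ := by
      funext n
      exact hxz (φ n)
    rw [h5] at h4
    exact tendsto_nhds_unique h4 (hzlim.comp hφ.tendsto_atTop)
  have hsub : C ⊆ interior A := by
    apply hCpre.subset_of_closure_inter_subset isOpen_interior
    · obtain ⟨x, hx, hx1, hxδ⟩ := hne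
      have hF1 : ‖F x‖ = 1 := by rw [hnorm x hx, hx1]
      have hF0 : F x ≠ 0 := by
        rw [← norm_ne_zero_iff, hF1]
        exact one_ne_zero
      have hFC : F x ∈ C := by
        apply (mem_iff hδ hy0 hF0).mp
        rw [hF1, inv_one, one_smul]
        exact hxδ
      exact ⟨F x, hFC, mem_interior_iff_mem_nhds.mpr (hAopen _ hFC ⟨x, hx, rfl⟩)⟩
    · rintro y ⟨hy, hyC⟩
      have h1 : y ∈ closure A := closure_mono interior_subset hy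
      exact mem_interior_iff_mem_nhds.mpr (hAopen y hyC (hAclosed y hyC h1))
  intro y hy hyδ
  have hyC : y ∈ C := (mem_iff hδ hy0 hy).mp hyδ
  obtain ⟨x, hx, hxy⟩ := interior_subset (hsub hyC)
  exact ⟨x, hx, hxy⟩

end Pool.Agent.Helper60.RF
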